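import Pool.Agent.Helper1.T3.Seq

namespace Pool.Agent.Helper1.T3

open Finset

noncomputable section

theorem shift1 (g : ℕ → ℝ) (m : ℕ) (h : g m = 0) :
    ∑ r ∈ range m, g (r+1) = ∑ r ∈ range m, g r - g 0 := by
  have h1 := Finset.sum_range_succ g m
  have h2 := Finset.sum_range_succ' g m
  linarith

theorem shift2 (g : ℕ → ℝ) (m : ℕ) (h : g m = 0) (h' : g (m+1) = 0) :
    ∑ r ∈ range m, g (r+2) = ∑ r ∈ range m, g r - g 0 - g 1 := by
  have h1 := shift1 (fun r => g (r+1)) m h'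
  have h2 := shift1 g m h
  have h3 : ∑ r ∈ range m, g (r+2) = ∑ r ∈ range m, (fun r => g (r+1)) (r+1) := rfl
  rw [h3, h1]
  simp only [zero_add]
  rw [h2]

/-- generating polynomial -/
def ZZ (m : ℕ) (c : ℕ → ℝ) (z : ℝ) : ℝ := ∑ r ∈ range m, c r * z ^ r
/-- first moment -/
def Z1 (m : ℕ) (c : ℕ → ℝ) (z : ℝ) : ℝ := ∑ r ∈ range m, (r:ℝ) * c r * z ^ r
/-- second moment -/
def Z2 (m : ℕ) (c : ℕ → ℝ) (z : ℝ) : ℝ := ∑ r ∈ range m, (r:ℝ)^2 * c r * z ^ r

section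
variable {m : ℕ} {t : ℝ} {c N S Q : ℕ → ℝ}

theorem tot_sum (hD : Data m t c N S Q) {z : ℝ} (hz : 0 < z) :
    ZZ m N z + 2 * ZZ m S z + 2 * ZZ m Q z = 2 * (ZZ m c z - Z1 m c z / z) := by
  have h1 := shift1 (fun r => (r:ℝ) * c r * z ^ r) m (by simp [hD.cvan m le_rfl])
  have h2 : Z1 m c z / z = ∑ r ∈ range m, ((r:ℝ)+1) * c (r+1) * z ^ r := by
    rw [div_eq_iff hz.ne', sum_mul]
    unfold Z1
    simp only [Nat.cast_zero, zero_mul, sub_zero] at h1
    rw [← h1]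
    apply sum_congr rfl
    intro r _
    push_cast
    ring
  rw [h2]
  unfold ZZ
  simp only [mul_sum, ← sum_add_distrib, ← sum_sub_distrib]
  apply sum_congr rfl
  intro r _
  have := hD.tot r
  linear_combination (z^r) * this

theorem var_sum (hD : Data m t c N S Q) {z : ℝ} (hz : 0 < z) (a b : ℝ) :
    0 ≤ (Z2 m c z - Z1 m c z) / z^2 + (ZZ m N z + ZZ m S z) / z
      - 2 * (a * (Z1 m c z / z) + b * ((Z2 m c z - Z1 m c z) / z))
      + (a^2 * ZZ m c z + 2 * a * b * Z1 m c z + b^2 * Z2 m c z) := by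
  have e1 : (Z2 m c z - Z1 m c z) / z^2 = ∑ r ∈ range m, ((r:ℝ)+1) * (r+2) * c (r+2) * z ^ r := by
    have h1 := shift2 (fun r => ((r:ℝ)^2 - r) * c r * z ^ r) m (by simp [hD.cvan m le_rfl])
      (by simp [hD.cvan (m+1) (by omega)])
    rw [div_eq_iff (by positivity), sum_mul]
    unfold Z2 Z1
    rw [← sum_sub_distrib]
    have h2 : ∑ r ∈ range m, ((r:ℝ)^2 * c r * z^r - (r:ℝ) * c r * z^r)
        = ∑ r ∈ range m, ((r:ℝ)^2 - r) * c r * z ^ r := by
      apply sum_congr rfl; intro r _; ring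
    rw [h2]
    norm_num at h1
    rw [← h1]
    apply sum_congr rfl
    intro r _
    push_cast
    ring
  have e2 : ZZ m N z / z = ∑ r ∈ range m, N (r+1) * z ^ r := by
    have h1 := shift1 (fun r => N r * z ^ r) m (by simp [hD.Nvan m le_rfl])
    rw [div_eq_iff hz.ne', sum_mul]
    unfold ZZ
    simp only [hD.N0, zero_mul, sub_zero] at h1
    rw [← h1]
    apply sum_congr rfl
    intro r _
    ring
  have e3 : ZZ m S z / z = ∑ r ∈ range m, S (r+1) * z ^ r := by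
    have h1 := shift1 (fun r => S r * z ^ r) m (by simp [hD.Svan m le_rfl])
    rw [div_eq_iff hz.ne', sum_mul]
    unfold ZZ
    simp only [hD.S0, zero_mul, sub_zero] at h1
    rw [← h1]
    apply sum_congr rfl
    intro r _
    ring
  have e4 : Z1 m c z / z = ∑ r ∈ range m, ((r:ℝ)+1) * c (r+1) * z ^ r := by
    have h1 := shift1 (fun r => (r:ℝ) * c r * z ^ r) m (by simp [hD.cvan m le_rfl])
    rw [div_eq_iff hz.ne', sum_mul]
    unfold Z1
    simp only [Nat.cast_zero, zero_mul, sub_zero] at h1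
    rw [← h1]
    apply sum_congr rfl
    intro r _
    push_cast
    ring
  have e5 : (Z2 m c z - Z1 m c z) / z = ∑ r ∈ range m, ((r:ℝ)+1) * r * c (r+1) * z ^ r := by
    have h1 := shift1 (fun r => ((r:ℝ)^2 - r) * c r * z ^ r) m (by simp [hD.cvan m le_rfl])
    rw [div_eq_iff hz.ne', sum_mul]
    unfold Z2 Z1
    rw [← sum_sub_distrib]
    have h2 : ∑ r ∈ range m, ((r:ℝ)^2 * c r * z^r - (r:ℝ) * c r * z^r)
        = ∑ r ∈ range m, ((r:ℝ)^2 - r) * c r * z ^ r := by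
      apply sum_congr rfl; intro r _; ring
    rw [h2]
    norm_num at h1
    rw [← h1]
    apply sum_congr rfl
    intro r _
    push_cast
    ring
  have e6 : (ZZ m N z + ZZ m S z) / z = ∑ r ∈ range m, (N (r+1) + S (r+1)) * z ^ r := by
    rw [add_div, e2, e3, ← sum_add_distrib]
    apply sum_congr rfl; intro r _; ring
  have key : 0 ≤ ∑ r ∈ range m, z^r * (((r:ℝ)+1) * (r+2) * c (r+2) + N (r+1) + S (r+1)
    - 2 * ((r+1) * c (r+1)) * (a + b * r) + (a + b * r)^2 * c r) := by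
    apply sum_nonneg
    intro r _
    exact mul_nonneg (by positivity) (hD.var a b r)
  refine le_of_le_of_eq key ?_
  rw [e1, e6, e4, e5]
  unfold ZZ Z1 Z2
  simp only [mul_sum, ← sum_add_distrib, ← sum_sub_distrib]
  apply sum_congr rfl
  intro r _
  ring

theorem main_sum (hD : Data m t c N S Q) (hm : 2 ≤ m) {z : ℝ} (hz : 0 < z) (α β : ℝ) :
    2 * (ZZ m c z - Z1 m c z / z) + 2 * ZZ m S z + 2 * ZZ m Q z
      + z * (α * (ZZ m N z + 2 * ZZ m S z) - α^2 * Z1 m c z / 2)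
      + z * (2 * β * ZZ m N z / 3 - β^2 * Z1 m c z / 3) - 8/3 * ZZ m Q z ≤ t * z * Z1 m c z := by
  have e0 : ZZ m c z = 1 + ∑ r ∈ range m, c (r+1) * z ^ (r+1) := by
    have h1 := shift1 (fun r => c r * z ^ r) m (by simp [hD.cvan m le_rfl])
    simp only [hD.c0, pow_zero, mul_one] at h1
    unfold ZZ
    linarith
  have e1 : Z1 m c z / z = 1 + ∑ r ∈ range m, ((r:ℝ)+2) * c (r+2) * z ^ (r+1) := by
    have h1 := shift2 (fun r => (r:ℝ) * c r * z ^ r) m (by simp [hD.cvan m le_rfl])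
      (by simp [hD.cvan (m+1) (by omega)])
    rw [div_eq_iff hz.ne', add_mul, sum_mul]
    simp only [Nat.cast_zero, zero_mul, sub_zero, Nat.cast_one, one_mul, hD.c1, pow_one] at h1
    unfold Z1
    have h3 : ∑ r ∈ range m, ((r:ℝ)+2) * c (r+2) * z ^ (r+1) * z
        = ∑ r ∈ range m, (((r+2 : ℕ):ℝ)) * c (r+2) * z ^ (r+2) := by
      apply sum_congr rfl
      intro r _
      push_cast
      ring
    rw [h3, h1]
    ring
  have e2 : ZZ m S z = ∑ r ∈ range m, S (r+1) * z ^ (r+1) := by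
    have h1 := shift1 (fun r => S r * z ^ r) m (by simp [hD.Svan m le_rfl])
    simp only [hD.S0, zero_mul, sub_zero] at h1
    unfold ZZ
    rw [h1]
  have e3 : ZZ m Q z = ∑ r ∈ range m, Q (r+1) * z ^ (r+1) := by
    have h1 := shift1 (fun r => Q r * z ^ r) m (by simp [hD.Qvan m le_rfl])
    simp only [hD.Q0, zero_mul, sub_zero] at h1
    unfold ZZ
    rw [h1]
  have key : ∑ r ∈ range m, z^(r+1) * (2 * (c (r+1) - (r+2) * c (r+2)) + 2 * S (r+1) + 2 * Q (r+1)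
    + (3 * (2 * α * (N r + 2 * S r) - α^2 * (r * c r)) + 2 * (2 * β * N r - β^2 * (r * c r))
      - 16 * Q (r+1)) / 6) ≤ ∑ r ∈ range m, z^(r+1) * (r * t * c r) := by
    apply sum_le_sum
    intro r _
    exact mul_le_mul_of_nonneg_left (hD.main α β r) (by positivity)
  have k1 : t * z * Z1 m c z = ∑ r ∈ range m, z^(r+1) * (r * t * c r) := by
    unfold Z1
    rw [mul_sum]
    apply sum_congr rfl
    intro r _
    ring
  rw [k1]
  refine le_trans (le_of_eq ?_) key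
  have k2 : 2 * (ZZ m c z - Z1 m c z / z) = ∑ r ∈ range m, z^(r+1) * (2 * (c (r+1) - (r+2) * c (r+2))) := by
    rw [e0, e1]
    have : (2:ℝ) * (1 + ∑ r ∈ range m, c (r + 1) * z ^ (r + 1) - (1 + ∑ r ∈ range m, ((r:ℝ) + 2) * c (r + 2) * z ^ (r + 1)))
       = 2 * (∑ r ∈ range m, c (r + 1) * z ^ (r + 1) - ∑ r ∈ range m, ((r:ℝ) + 2) * c (r + 2) * z ^ (r + 1)) := by ring
    rw [this, ← sum_sub_distrib, mul_sum]
    apply sum_congr rfl
    intro r _
    ring
  have k3 : 2 * ZZ m S z + 2 * ZZ m Q z - 8/3 * ZZ m Q z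
      = ∑ r ∈ range m, z^(r+1) * (2 * S (r+1) + 2 * Q (r+1) - 16 * Q (r+1) / 6) := by
    rw [e2, e3]
    simp only [mul_sum, ← sum_add_distrib, ← sum_sub_distrib]
    apply sum_congr rfl
    intro r _
    ring
  have k4 : z * (α * (ZZ m N z + 2 * ZZ m S z) - α^2 * Z1 m c z / 2)
      + z * (2 * β * ZZ m N z / 3 - β^2 * Z1 m c z / 3)
      = ∑ r ∈ range m, z^(r+1) * ((3 * (2 * α * (N r + 2 * S r) - α^2 * (r * c r)) + 2 * (2 * β * N r - β^2 * (r * c r))) / 6) := by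
    unfold ZZ Z1
    simp only [mul_sum, sum_div, ← sum_add_distrib, ← sum_sub_distrib]
    apply sum_congr rfl
    intro r _
    ring
  have k5 : 2 * (ZZ m c z - Z1 m c z / z) + 2 * ZZ m S z + 2 * ZZ m Q z
      + z * (α * (ZZ m N z + 2 * ZZ m S z) - α^2 * Z1 m c z / 2)
      + z * (2 * β * ZZ m N z / 3 - β^2 * Z1 m c z / 3) - 8/3 * ZZ m Q z
      = 2 * (ZZ m c z - Z1 m c z / z) + (2 * ZZ m S z + 2 * ZZ m Q z - 8/3 * ZZ m Q z)
        + (z * (α * (ZZ m N z + 2 * ZZ m S z) - α^2 * Z1 m c z / 2)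
      + z * (2 * β * ZZ m N z / 3 - β^2 * Z1 m c z / 3)) := by ring
  rw [k5, k2, k3, k4, ← sum_add_distrib, ← sum_add_distrib]
  apply sum_congr rfl
  intro r _
  ring

end

end

end Pool.Agent.Helper1.T3
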