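import Pool.Agent.Helper1.T3.Analysis

namespace Pool.Agent.Helper1.T3

open Finset

noncomputable section

section
variable {m : ℕ} {t : ℝ} {c N S Q : ℕ → ℝ}

theorem ZZ_nonneg (h : ∀ r, 0 ≤ c r) {z : ℝ} (hz : 0 < z) : 0 ≤ ZZ m c z := by
  unfold ZZ
  exact sum_nonneg (fun r _ => mul_nonneg (h r) (by positivity))

theorem ZZ_ge_one (hD : Data m t c N S Q) (hm : 2 ≤ m) {z : ℝ} (hz : 0 < z) : 1 ≤ ZZ m c z := by
  unfold ZZ
  have h0 : (0:ℕ) ∈ range m := by simp; omega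
  have h1 := single_le_sum (f := fun r => c r * z ^ r) (s := range m)
    (fun r _ => mul_nonneg (hD.cnn r) (by positivity)) h0
  simpa [hD.c0] using h1

theorem Z1_ge (hD : Data m t c N S Q) (hm : 2 ≤ m) {z : ℝ} (hz : 0 < z) : z ≤ Z1 m c z := by
  unfold Z1
  have h0 : (1:ℕ) ∈ range m := by simp; omega
  have h1 := single_le_sum (f := fun r : ℕ => (r:ℝ) * c r * z ^ r) (s := range m)
    (fun r _ => mul_nonneg (mul_nonneg (by positivity) (hD.cnn r)) (by positivity)) h0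
  simpa [hD.c1] using h1

theorem Z1_le (hD : Data m t c N S Q) {z : ℝ} (hz : 0 < z) : Z1 m c z ≤ (m-1) * ZZ m c z := by
  unfold Z1 ZZ
  rw [mul_sum]
  apply sum_le_sum
  intro r hr
  have h1 : r + 1 ≤ m := by simpa using hr
  have h2 : (r:ℝ) ≤ m - 1 := by
    have : ((r+1 : ℕ):ℝ) ≤ m := by exact_mod_cast h1
    push_cast at this; linarith
  have h3 : 0 ≤ c r * z^r := mul_nonneg (hD.cnn r) (by positivity)
  nlinarith

/-- the variance identity -/
theorem var_ge (hD : Data m t c N S Q) (hm : 2 ≤ m) {z : ℝ} (a : ℝ) (hz : 0 < z) :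
    a^2 ≤ Z2 m c z - 2 * a * Z1 m c z + a^2 * ZZ m c z := by
  have h1 : Z2 m c z - 2 * a * Z1 m c z + a^2 * ZZ m c z = ∑ r ∈ range m, ((r:ℝ) - a)^2 * c r * z ^ r := by
    unfold Z1 Z2 ZZ
    simp only [mul_sum, ← sum_add_distrib, ← sum_sub_distrib]
    apply sum_congr rfl
    intro r _
    ring
  rw [h1]
  have h0 : (0:ℕ) ∈ range m := by simp; omega
  have h1 := single_le_sum (f := fun r : ℕ => ((r:ℝ) - a)^2 * c r * z ^ r) (s := range m)
    (fun r _ => mul_nonneg (mul_nonneg (by positivity) (hD.cnn r)) (by positivity)) h0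
  simpa [hD.c0] using h1

theorem hasDeriv_ZZ (c : ℕ → ℝ) (m : ℕ) {z : ℝ} (hz : 0 < z) :
    HasDerivAt (ZZ m c) (Z1 m c z / z) z := by
  unfold ZZ Z1
  have h : ∀ r ∈ range m, HasDerivAt (fun z => c r * z ^ r) ((r:ℝ) * c r * z^r / z) z := by
    intro r _
    have h1 := (hasDerivAt_pow r z).const_mul (c r)
    refine h1.congr_deriv ?_
    rcases r with _ | r
    · simp
    · simp only [Nat.add_sub_cancel]
      field_simp
      ring
  have := HasDerivAt.fun_sum h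
  rw [sum_div]
  exact this

theorem hasDeriv_Z1 (c : ℕ → ℝ) (m : ℕ) {z : ℝ} (hz : 0 < z) :
    HasDerivAt (Z1 m c) (Z2 m c z / z) z := by
  have h1 : Z1 m c = ZZ m (fun r => (r:ℝ) * c r) := by
    funext z; rfl
  have h2 : Z2 m c z = Z1 m (fun r => (r:ℝ) * c r) z := by
    unfold Z2 Z1
    apply sum_congr rfl; intro r _; ring
  rw [h1, h2]
  exact hasDeriv_ZZ _ m hz

/-- mean -/
def MN (m : ℕ) (c : ℕ → ℝ) (z : ℝ) : ℝ := Z1 m c z / ZZ m c z
/-- variance -/
def MV (m : ℕ) (c : ℕ → ℝ) (z : ℝ) : ℝ := Z2 m c z / ZZ m c z - (Z1 m c z / ZZ m c z)^2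

theorem hasDeriv_MN (hD : Data m t c N S Q) (hm : 2 ≤ m) {z : ℝ} (hz : 0 < z) :
    HasDerivAt (MN m c) (MV m c z / z) z := by
  have hZ : 0 < ZZ m c z := by linarith [ZZ_ge_one hD hm hz]
  have h := (hasDeriv_Z1 c m hz).div (hasDeriv_ZZ c m hz) hZ.ne'
  refine h.congr_deriv ?_
  unfold MV
  field_simp

theorem MV_pos (hD : Data m t c N S Q) (hm : 2 ≤ m) {z : ℝ} (hz : 0 < z) : 0 < MV m c z := by
  have hZ : 0 < ZZ m c z := by linarith [ZZ_ge_one hD hm hz]
  have h1 : 0 < Z1 m c z := by linarith [Z1_ge hD hm hz]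
  have h := var_ge hD hm (Z1 m c z / ZZ m c z) hz
  have h2 : 0 < (Z1 m c z / ZZ m c z)^2 := by positivity
  have h3 : Z2 m c z - 2 * (Z1 m c z / ZZ m c z) * Z1 m c z + (Z1 m c z / ZZ m c z)^2 * ZZ m c z
      = ZZ m c z * MV m c z := by
    unfold MV
    field_simp
    ring
  rw [h3] at h
  by_contra hneg
  have : ZZ m c z * MV m c z ≤ 0 := mul_nonpos_of_nonneg_of_nonpos hZ.le (not_lt.mp hneg)
  linarith

theorem MN_pos (hD : Data m t c N S Q) (hm : 2 ≤ m) {z : ℝ} (hz : 0 < z) : 0 < MN m c z := by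
  have hZ : 0 < ZZ m c z := by linarith [ZZ_ge_one hD hm hz]
  have h1 : 0 < Z1 m c z := by linarith [Z1_ge hD hm hz]
  unfold MN; positivity

theorem MN_le (hD : Data m t c N S Q) (hm : 2 ≤ m) {z : ℝ} (hz : 0 < z) : MN m c z ≤ m - 1 := by
  have hZ : 0 < ZZ m c z := by linarith [ZZ_ge_one hD hm hz]
  unfold MN
  rw [div_le_iff₀ hZ]
  exact Z1_le hD hz

/-- `(2U+S)/Z` -/
def WW (m : ℕ) (N S : ℕ → ℝ) (c : ℕ → ℝ) (z : ℝ) : ℝ := (ZZ m N z + ZZ m S z) / ZZ m c z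

/-- inequality (dC') -/
theorem dC_ineq (hD : Data m t c N S Q) (hm : 2 ≤ m) {z : ℝ} (hz : 0 < z) :
    MN m c z * (MN m c z - MV m c z) / z ≤ WW m N S c z * MV m c z := by
  have hZ : 0 < ZZ m c z := by linarith [ZZ_ge_one hD hm hz]
  have hV := MV_pos hD hm hz
  set M := MN m c z with hM
  set V := MV m c z with hVdef
  set W := WW m N S c z with hW
  have e1 : Z1 m c z = M * ZZ m c z := by
    rw [hM]; unfold MN; field_simp
  have e2 : Z2 m c z = (V + M^2) * ZZ m c z := by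
    rw [hVdef, hM]; unfold MV MN; field_simp; ring
  have e3 : ZZ m N z + ZZ m S z = W * ZZ m c z := by
    rw [hW]; unfold WW; field_simp
  have h := var_sum hD hz (M / z - (V - M) / (z * V) * M) ((V - M) / (z * V))
  rw [e3, e2, e1] at h
  have h2 : ((V + M ^ 2) * ZZ m c z - M * ZZ m c z) / z ^ 2 + W * ZZ m c z / z
      - 2 * ((M / z - (V - M) / (z * V) * M) * (M * ZZ m c z / z) + (V - M) / (z * V) * (((V + M ^ 2) * ZZ m c z - M * ZZ m c z) / z))
      + ((M / z - (V - M) / (z * V) * M) ^ 2 * ZZ m c z + 2 * (M / z - (V - M) / (z * V) * M) * ((V - M) / (z * V)) * (M * ZZ m c z)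
        + ((V - M) / (z * V)) ^ 2 * ((V + M ^ 2) * ZZ m c z))
      = ZZ m c z / (z * V) * (W * V - M * (M - V) / z) := by
    field_simp
    ring
  rw [h2] at h
  have h3 : 0 < ZZ m c z / (z * V) := by positivity
  by_contra hneg
  have : W * V - M * (M - V) / z < 0 := by linarith
  have := mul_neg_of_pos_of_neg h3 this
  linarith

/-- inequality (C') -/
theorem C_ineq (hD : Data m t c N S Q) (hm : 2 ≤ m) {z : ℝ} (hz : 0 < z) {x y q u : ℝ}
    (hx : ZZ m N z = 2 * x * ZZ m c z) (hy : ZZ m S z = y * ZZ m c z) (hq : ZZ m Q z = q * ZZ m c z)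
    (hu : u = 1 - MN m c z / z) :
    (1 - u) * (u + y + q) + (x + y)^2 + 2/3 * x^2 - 4/3 * (1 - u) * q ≤ t * (MN m c z)^2 / 2 := by
  have hZ : 0 < ZZ m c z := by linarith [ZZ_ge_one hD hm hz]
  have hM0 := MN_pos hD hm hz
  set M := MN m c z with hM
  have e1 : Z1 m c z = M * ZZ m c z := by
    rw [hM]; unfold MN; field_simp
  have h := main_sum hD hm hz (2 * (x + y) / M) (2 * x / M)
  rw [hx, hy, hq, e1] at h
  have h2 : 2 * (ZZ m c z - M * ZZ m c z / z) + 2 * (y * ZZ m c z) + 2 * (q * ZZ m c z) +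
          z * (2 * (x + y) / M * (2 * x * ZZ m c z + 2 * (y * ZZ m c z)) - (2 * (x + y) / M) ^ 2 * (M * ZZ m c z) / 2) +
        z * (2 * (2 * x / M) * (2 * x * ZZ m c z) / 3 - (2 * x / M) ^ 2 * (M * ZZ m c z) / 3) -
      8 / 3 * (q * ZZ m c z) - t * z * (M * ZZ m c z)
      = (2 * z * ZZ m c z / M) * ((1 - u) * (u + y + q) + (x + y)^2 + 2/3 * x^2 - 4/3 * (1 - u) * q - t * M^2 / 2) := by
    rw [hu]
    field_simp
    ring
  have h3 : 0 < 2 * z * ZZ m c z / M := by positivity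
  by_contra hneg
  have h4 : 0 < (1 - u) * (u + y + q) + (x + y)^2 + 2/3 * x^2 - 4/3 * (1 - u) * q - t * M^2 / 2 := by
    linarith
  have := mul_pos h3 h4
  linarith

end

end

end Pool.Agent.Helper1.T3
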