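import Pool.Agent.Helper1.T3.Analysis2

namespace Pool.Agent.Helper1.T3

open Finset Set Filter Topology

noncomputable section

/-- the barrier -/
def psi (u : ℝ) : ℝ := -1/100 + 41/40 * u + 59/200 * u^2 - 3/50 * u^3
/-- its derivative -/
def psi' (u : ℝ) : ℝ := 41/40 + 59/100 * u - 9/50 * u^2

theorem hasDeriv_psi (u : ℝ) : HasDerivAt psi (psi' u) u := by
  unfold psi psi'
  have h1 : HasDerivAt (fun u : ℝ => -1/100 + 41/40 * u + 59/200 * u^2 - 3/50 * u^3)
      (0 + 41/40 * 1 + 59/200 * (2 * u^1 * 1) - 3/50 * (3 * u^2 * 1)) u := by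
    have hid := hasDerivAt_id' u
    have hc := hasDerivAt_const u (-1/100 : ℝ)
    have h2 := ((hc.add (hid.const_mul (41/40 : ℝ))).add ((hid.pow 2).const_mul (59/200 : ℝ))).sub
      ((hid.pow 3).const_mul (3/50 : ℝ))
    refine h2.congr_deriv ?_
    norm_num
  refine h1.congr_deriv ?_
  ring

theorem psi'_pos {u : ℝ} (h0 : 0 ≤ u) (h1 : u ≤ 1) : 0 < psi' u := by
  unfold psi'
  nlinarith

theorem poly_pos {u : ℝ} (h0 : 0 ≤ u) (h1 : u ≤ 1) :
    psi u * psi' u ^ 2 < 2/3 * u * (1 - u) * psi' u ^ 2 + 1/3 * (1 - u) * psi u * psi' u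
      + 5/3 * psi u ^ 2 := by
  have h2 : 0 ≤ 1 - u := by linarith
  have h3 : 2/3 * u * (1 - u) * psi' u ^ 2 + 1/3 * (1 - u) * psi u * psi' u
      + 5/3 * psi u ^ 2 - psi u * psi' u ^ 2 = 1/10000 + (229/32000*u^0*(1-u)^10 + 118441/4800000*u^1*(1-u)^9 + 1824277/12000000*u^2*(1-u)^8 + 2324557/3000000*u^3*(1-u)^7 + 11045117/6000000*u^4*(1-u)^6 + 25755641/12000000*u^5*(1-u)^5 + 6970213/6000000*u^6*(1-u)^4 + 273403/1500000*u^7*(1-u)^3 + 100363/12000000*u^8*(1-u)^2 + 1728809/24000000*u^9*(1-u)^1 + 14417/480000*u^10*(1-u)^0) := by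
    unfold psi psi'
    ring
  have h4 : 0 ≤ (229/32000*u^0*(1-u)^10 + 118441/4800000*u^1*(1-u)^9 + 1824277/12000000*u^2*(1-u)^8 + 2324557/3000000*u^3*(1-u)^7 + 11045117/6000000*u^4*(1-u)^6 + 25755641/12000000*u^5*(1-u)^5 + 6970213/6000000*u^6*(1-u)^4 + 273403/1500000*u^7*(1-u)^3 + 100363/12000000*u^8*(1-u)^2 + 1728809/24000000*u^9*(1-u)^1 + 14417/480000*u^10*(1-u)^0) := by positivity
  linarith

theorem psi_mono {u w : ℝ} (h0 : 0 ≤ u) (h1 : u ≤ w) (h2 : w ≤ 1) : psi u ≤ psi w := by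
  have h : psi w - psi u = (w - u) * (41/40 + 59/200 * (w + u) - 3/50 * (w^2 + w * u + u^2)) := by
    unfold psi; ring
  have h3 : 0 ≤ 41/40 + 59/200 * (w + u) - 3/50 * (w^2 + w * u + u^2) := by nlinarith
  have h4 : 0 ≤ (w - u) * (41/40 + 59/200 * (w + u) - 3/50 * (w^2 + w * u + u^2)) :=
    mul_nonneg (by linarith) h3
  linarith

section
variable {m : ℕ} {t : ℝ} {c N S Q : ℕ → ℝ}

theorem step_neg (hD : Data m t c N S Q) (hm : 2 ≤ m) {z : ℝ} (hz : 0 < z)
    (h : psi (1 - MN m c z / z) - t * (MN m c z)^2 / 2 = 0) :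
    psi' (1 - MN m c z / z) * (MN m c z - MV m c z) / z^2 - t * MN m c z * MV m c z / z < 0 := by
  have hZ : 0 < ZZ m c z := by linarith [ZZ_ge_one hD hm hz]
  have hV := MV_pos hD hm hz
  have hM := MN_pos hD hm hz
  have hdC := dC_ineq hD hm hz
  obtain ⟨x, hx⟩ : ∃ x, x = ZZ m N z / (2 * ZZ m c z) := ⟨_, rfl⟩
  obtain ⟨y, hy⟩ : ∃ y, y = ZZ m S z / ZZ m c z := ⟨_, rfl⟩
  obtain ⟨q, hq⟩ : ∃ q, q = ZZ m Q z / ZZ m c z := ⟨_, rfl⟩
  have hx0 : 0 ≤ x := by rw [hx]; exact div_nonneg (ZZ_nonneg hD.Nnn hz) (by positivity)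
  have hy0 : 0 ≤ y := by rw [hy]; exact div_nonneg (ZZ_nonneg hD.Snn hz) (by positivity)
  have hq0 : 0 ≤ q := by rw [hq]; exact div_nonneg (ZZ_nonneg hD.Qnn hz) (by positivity)
  have hx' : ZZ m N z = 2 * x * ZZ m c z := by rw [hx]; field_simp
  have hy' : ZZ m S z = y * ZZ m c z := by rw [hy]; field_simp
  have hq' : ZZ m Q z = q * ZZ m c z := by rw [hq]; field_simp
  have hC := C_ineq hD hm hz hx' hy' hq' rfl
  have hW : WW m N S c z = 2 * x + y := by
    unfold WW; rw [hx', hy']; field_simp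
  have hT := tot_sum hD hz
  have hZ1 : Z1 m c z = MN m c z * ZZ m c z := by unfold MN; field_simp
  rw [hW] at hdC
  obtain ⟨M, hMe⟩ : ∃ M, M = MN m c z := ⟨_, rfl⟩
  obtain ⟨V, hVe⟩ : ∃ V, V = MV m c z := ⟨_, rfl⟩
  obtain ⟨u, hue⟩ : ∃ u, u = 1 - MN m c z / z := ⟨_, rfl⟩
  have hu : x + y + q = u := by
    rw [hx', hy', hq', hZ1] at hT
    have h5 : (x + y + q) * (2 * ZZ m c z) = u * (2 * ZZ m c z) := by
      rw [hue]
      have : ZZ m c z - MN m c z * ZZ m c z / z = (1 - MN m c z / z) * ZZ m c z := by ring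
      rw [this] at hT
      linarith
    exact mul_right_cancel₀ (by positivity) h5
  rw [← hue] at hC h ⊢
  rw [← hMe] at hC h hdC hM ⊢
  rw [← hVe] at hV hdC ⊢
  have hu0 : 0 ≤ u := by linarith
  have hu1 : u ≤ 1 := by
    rw [hue, ← hMe]
    have : 0 < M / z := by positivity
    linarith
  have hp' := psi'_pos hu0 hu1
  have hpp := poly_pos hu0 hu1
  obtain ⟨p, hpe⟩ : ∃ p, p = psi u := ⟨_, rfl⟩
  obtain ⟨d, hde⟩ : ∃ d, d = psi' u := ⟨_, rfl⟩
  rw [← hpe, ← hde] at hpp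
  rw [← hpe] at h
  rw [← hde] at hp' ⊢
  have hpt : p = t * M^2 / 2 := by linarith
  rw [← hpt] at hC
  have hkey : d * (2 * x + y) < 2 * p := by
    by_contra hcon
    push Not at hcon
    have hqe : q = u - x - y := by linarith
    rw [hqe] at hC
    have hp0 : 0 ≤ p := by
      have h6 : 0 ≤ (1 - u) * (u + y + (u - x - y)) + (x + y) ^ 2 + 2 / 3 * x ^ 2 - 4 / 3 * (1 - u) * (u - x - y) := by
        have h1u : 0 ≤ 1 - u := by linarith
        have : (1 - u) * (u + y + (u - x - y)) + (x + y) ^ 2 + 2 / 3 * x ^ 2 - 4 / 3 * (1 - u) * (u - x - y)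
          = (1 - u) * (2/3 * u + (x + 4 * y) / 3) + (x + y)^2 + 2/3 * x^2 := by ring
        rw [this]
        have : 0 ≤ (1 - u) * (2/3 * u + (x + 4 * y) / 3) := mul_nonneg h1u (by linarith)
        positivity
      linarith
    have h7 : (1 - u) * (2/3 * u * d^2 + d * (d * x + 4 * (d * y)) / 3) + (d * x + d * y)^2 + 2/3 * (d * x)^2 ≤ p * d^2 := by
      have h8 : ((1 - u) * (u + y + (u - x - y)) + (x + y) ^ 2 + 2 / 3 * x ^ 2 - 4 / 3 * (1 - u) * (u - x - y)) * d^2 ≤ p * d^2 :=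
        mul_le_mul_of_nonneg_right hC (by positivity)
      have h9 : ((1 - u) * (u + y + (u - x - y)) + (x + y) ^ 2 + 2 / 3 * x ^ 2 - 4 / 3 * (1 - u) * (u - x - y)) * d^2
        = (1 - u) * (2/3 * u * d^2 + d * (d * x + 4 * (d * y)) / 3) + (d * x + d * y)^2 + 2/3 * (d * x)^2 := by ring
      linarith
    have hX0 : 0 ≤ d * x := by positivity
    have hY0 : 0 ≤ d * y := by positivity
    have hXY : p ≤ d * x + d * y / 2 := by nlinarith
    have h10 : 5/3 * p^2 ≤ (d * x + d * y)^2 + 2/3 * (d * x)^2 := by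
      have h11 : p^2 ≤ (d * x + d * y / 2)^2 := by
        apply pow_le_pow_left₀ hp0 hXY
      nlinarith [mul_nonneg hX0 hY0, sq_nonneg (d * y)]
    have h12 : (1 - u) * (2/3 * u * d^2 + d * p / 3) ≤ (1 - u) * (2/3 * u * d^2 + d * (d * x + 4 * (d * y)) / 3) := by
      apply mul_le_mul_of_nonneg_left _ (by linarith)
      have : d * p ≤ d * (d * x + 4 * (d * y)) := by
        apply mul_le_mul_of_nonneg_left _ hp'.le
        linarith
      linarith
    have h13 : 2 / 3 * u * (1 - u) * d ^ 2 + 1 / 3 * (1 - u) * p * d = (1 - u) * (2/3 * u * d^2 + d * p / 3) := by ring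
    linarith
  have h20 : z * M * (d * (M - V) / z ^ 2 - t * M * V / z) = d * (M * (M - V) / z) - (t * M^2) * V := by
    field_simp
  have h21 : d * (M * (M - V) / z) ≤ d * ((2 * x + y) * V) := mul_le_mul_of_nonneg_left hdC hp'.le
  have h22 : z * M * (d * (M - V) / z ^ 2 - t * M * V / z) < 0 := by
    rw [h20]
    have : t * M^2 = 2 * p := by rw [hpt]; ring
    rw [this]
    have : d * ((2 * x + y) * V) - 2 * p * V = (d * (2 * x + y) - 2 * p) * V := by ring
    have h23 : (d * (2 * x + y) - 2 * p) * V < 0 := mul_neg_of_neg_of_pos (by linarith) hV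
    linarith
  by_contra hneg
  push Not at hneg
  have : 0 ≤ z * M * (d * (M - V) / z ^ 2 - t * M * V / z) := by positivity
  linarith

theorem hasDeriv_f (hD : Data m t c N S Q) (hm : 2 ≤ m) {z : ℝ} (hz : 0 < z) :
    HasDerivAt (fun z => psi (1 - MN m c z / z) - t * (MN m c z)^2 / 2)
      (psi' (1 - MN m c z / z) * (MN m c z - MV m c z) / z^2 - t * MN m c z * MV m c z / z) z := by
  have hM := hasDeriv_MN hD hm hz
  have h1 : HasDerivAt (fun z => 1 - MN m c z / z) ((MN m c z - MV m c z) / z^2) z := by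
    have := (hM.div (hasDerivAt_id' z) hz.ne').const_sub 1
    refine this.congr_deriv ?_
    field_simp
    ring
  have h2 := (hasDeriv_psi (1 - MN m c z / z)).comp z h1
  have h3 := ((hM.pow 2).const_mul t).div_const 2
  refine (h2.sub h3).congr_deriv ?_
  push_cast
  field_simp

theorem barrier (hD : Data m t c N S Q) (hm : 2 ≤ m) (ht : 0 ≤ t) {z : ℝ} (hz : 1/200 ≤ z) :
    psi (1 - MN m c z / z) ≤ t * (MN m c z)^2 / 2 := by
  have key := image_le_of_deriv_right_lt_deriv_boundary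
    (f := fun z => psi (1 - MN m c z / z) - t * (MN m c z)^2 / 2)
    (f' := fun z => psi' (1 - MN m c z / z) * (MN m c z - MV m c z) / z^2 - t * MN m c z * MV m c z / z)
    (a := 1/200) (b := z) (B := fun _ => (0:ℝ)) (B' := fun _ => (0:ℝ)) ?_ ?_ ?_ ?_ ?_
    (x := z) ⟨hz, le_rfl⟩
  · linarith
  · intro w hw
    exact (hasDeriv_f hD hm (by have := hw.1; linarith)).continuousAt.continuousWithinAt
  · intro w hw
    exact (hasDeriv_f hD hm (by have := hw.1; linarith)).hasDerivWithinAt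
  · -- initial condition
    have hz0 : (0:ℝ) < 1/200 := by norm_num
    have hZ := ZZ_ge_one hD hm hz0
    have hZ1 := Z1_ge hD hm hz0
    have hZle : ZZ m c (1/200) ≤ 200/199 := by
      have h1 : ZZ m c (1/200) ≤ ∑ r ∈ range m, ((1:ℝ)/200)^r := by
        unfold ZZ
        apply sum_le_sum
        intro r _
        have := hD.cle r
        have h2 : (0:ℝ) ≤ ((1:ℝ)/200)^r := by positivity
        nlinarith
      have h2 : ∑ r ∈ range m, ((1:ℝ)/200)^r = (((1:ℝ)/200)^m - 1) / (1/200 - 1) :=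
        geom_sum_eq (by norm_num) m
      have h3 : (0:ℝ) ≤ ((1:ℝ)/200)^m := by positivity
      rw [h2] at h1
      have h4 : (((1:ℝ)/200)^m - 1) / (1/200 - 1) ≤ 200/199 := by
        rw [div_le_iff_of_neg (by norm_num)]
        linarith
      linarith
    have hu1 : 199/200 ≤ MN m c (1/200) / (1/200) := by
      unfold MN
      rw [div_div, le_div_iff₀ (by positivity)]
      nlinarith
    have hM := MN_pos hD hm hz0
    have hu2 : 1 - MN m c (1/200) / (1/200) ≤ 1/200 := by linarith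
    have hu3 : 0 ≤ 1 - MN m c (1/200) / (1/200) := by
      have hT := tot_sum hD hz0
      have h5 := ZZ_nonneg (m := m) hD.Nnn hz0
      have h6 := ZZ_nonneg (m := m) hD.Snn hz0
      have h7 := ZZ_nonneg (m := m) hD.Qnn hz0
      have h8 : 0 ≤ ZZ m c (1/200) - Z1 m c (1/200) / (1/200) := by linarith
      have h9 : 1 - MN m c (1/200) / (1/200) = (ZZ m c (1/200) - Z1 m c (1/200) / (1/200)) / ZZ m c (1/200) := by
        unfold MN; field_simp
      rw [h9]
      positivity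
    have h10 := psi_mono hu3 hu2 (by norm_num)
    have h11 : psi (1/200) ≤ 0 := by unfold psi; norm_num
    have h12 : 0 ≤ t * (MN m c (1/200))^2 / 2 := by positivity
    show psi (1 - MN m c (1/200) / (1/200)) - t * (MN m c (1/200))^2 / 2 ≤ 0
    linarith
  · intro w
    exact hasDerivAt_const _ _
  · intro w hw h0
    exact step_neg hD hm (by have := hw.1; linarith) h0

/-- **analysis conclusion** -/
theorem analysis (hD : Data m t c N S Q) (hm : 2 ≤ m) (ht : 0 ≤ t) :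
    5/4 ≤ t * ((m:ℝ) - 1)^2 / 2 := by
  have hm1 : (1:ℝ) ≤ m - 1 := by
    have : (2:ℝ) ≤ m := by exact_mod_cast hm
    linarith
  have h1 : ∀ z : ℝ, (m:ℝ) ≤ z → psi (1 - (m-1) / z) ≤ t * ((m:ℝ) - 1)^2 / 2 := by
    intro z hz
    have hz0 : 0 < z := by linarith
    have hb := barrier hD hm ht (z := z) (by linarith)
    have hMN := MN_le hD hm hz0
    have hM := MN_pos hD hm hz0
    have h2 : MN m c z / z ≤ (m-1) / z := by
      apply div_le_div_of_nonneg_right hMN hz0.le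
    have h3 : 0 < MN m c z / z := by positivity
    have h4 : 0 ≤ 1 - ((m:ℝ)-1) / z := by
      rw [sub_nonneg, div_le_one hz0]; linarith
    have h5 := psi_mono h4 (show 1 - ((m:ℝ)-1)/z ≤ 1 - MN m c z / z by linarith) (by linarith)
    have h6 : t * (MN m c z)^2 / 2 ≤ t * ((m:ℝ) - 1)^2 / 2 := by
      have : (MN m c z)^2 ≤ ((m:ℝ) - 1)^2 := pow_le_pow_left₀ hM.le hMN 2
      nlinarith
    linarith
  have h2 : Tendsto (fun z : ℝ => psi (1 - (m-1) / z)) atTop (𝓝 (psi (1 - 0))) := by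
    have hc : Continuous psi := by unfold psi; fun_prop
    apply (hc.tendsto _).comp
    apply Tendsto.const_sub
    exact Tendsto.div_atTop tendsto_const_nhds tendsto_id
  have h3 : psi (1 - 0) ≤ t * ((m:ℝ) - 1)^2 / 2 :=
    le_of_tendsto h2 (eventually_atTop.mpr ⟨(m:ℝ), fun z hz => h1 z hz⟩)
  have h4 : psi (1 - 0) = 5/4 := by unfold psi; norm_num
  linarith

end

end

end Pool.Agent.Helper1.T3
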