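import Mathlib

namespace Pool.Agent.Helper1.T3

open Finset
open scoped Classical

noncomputable section

/-- symmetric ternary relation -/
structure Sym3 {V : Type*} (T : V → V → V → Prop) : Prop where
  s12 : ∀ a b c, T a b c → T b a c
  s23 : ∀ a b c, T a b c → T a c b

namespace Sym3
variable {V : Type*} {T : V → V → V → Prop} (h : Sym3 T)
include h
theorem s13 {a b c : V} (t : T a b c) : T c b a := h.s12 _ _ _ (h.s23 _ _ _ (h.s12 _ _ _ t))
theorem rot {a b c : V} (t : T a b c) : T b c a := h.s23 _ _ _ (h.s12 _ _ _ t)
theorem rot' {a b c : V} (t : T a b c) : T c a b := h.s12 _ _ _ (h.s23 _ _ _ t)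
end Sym3

/-- real indicator -/
def ind (p : Prop) : ℝ := if p then 1 else 0

theorem ind_nonneg (p : Prop) : 0 ≤ ind p := by unfold ind; split <;> norm_num
theorem ind_le_one (p : Prop) : ind p ≤ 1 := by unfold ind; split <;> norm_num
theorem ind_true {p : Prop} (h : p) : ind p = 1 := by simp [ind, h]
theorem ind_false {p : Prop} (h : ¬ p) : ind p = 0 := by simp [ind, h]
theorem ind_mono {p q : Prop} (h : p → q) : ind p ≤ ind q := by
  by_cases hp : p
  · rw [ind_true hp, ind_true (h hp)]
  · rw [ind_false hp]; exact ind_nonneg _
theorem ind_and (p q : Prop) : ind (p ∧ q) = ind p * ind q := by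
  by_cases hp : p <;> by_cases hq : q <;> simp [ind, hp, hq]
theorem ind_congr {p q : Prop} (h : p ↔ q) : ind p = ind q := by rw [propext h]
theorem ind_mul_self (p : Prop) : ind p * ind p = ind p := by
  by_cases hp : p <;> simp [ind, hp]

variable {V : Type*} [Fintype V] {ι : Type*} [Fintype ι]
variable (T : V → V → V → Prop)

def Ind (R : ι → V) : Prop :=
  ∀ i j k, i ≠ j → i ≠ k → j ≠ k → ¬ T (R i) (R j) (R k)

def Free (R : ι → V) (x : V) : Prop := ∀ i j, i ≠ j → ¬ T (R i) (R j) x

/-- no blocking pair of `x` avoiding the position `b` -/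
def FreeOff (R : ι → V) (b : ι) (x : V) : Prop :=
  ∀ i j, i ≠ b → j ≠ b → i ≠ j → ¬ T (R i) (R j) x

def Gam (R : ι → V) (b : ι) (x : V) : Finset ι :=
  univ.filter (fun i => i ≠ b ∧ T (R i) (R b) x)

/-- `x` is blocked by `R` exactly by the pair of positions `{i,b}` -/
def K (R : ι → V) (i b : ι) (x : V) : Prop := FreeOff T R b x ∧ Gam T R b x = {i}

theorem mem_Gam {R : ι → V} {b i : ι} {x : V} : i ∈ Gam T R b x ↔ i ≠ b ∧ T (R i) (R b) x := by
  simp [Gam]

variable {T}

theorem K_iff (hT : Sym3 T) {R : ι → V} {i b : ι} {x : V} :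
    K T R i b x ↔ i ≠ b ∧ T (R i) (R b) x ∧
      ∀ k l, k ≠ l → T (R k) (R l) x → (k = i ∧ l = b) ∨ (k = b ∧ l = i) := by
  constructor
  · rintro ⟨h1, h2⟩
    have hi : i ∈ Gam T R b x := by rw [h2]; simp
    rw [mem_Gam] at hi
    refine ⟨hi.1, hi.2, ?_⟩
    intro k l hkl ht
    by_cases hk : k = b
    · right
      refine ⟨hk, ?_⟩
      subst hk
      have : l ∈ Gam T R k x := by
        rw [mem_Gam]; exact ⟨hkl.symm, hT.s12 _ _ _ ht⟩
      rw [h2] at this; simpa using this
    · by_cases hl : l = b
      · left
        refine ⟨?_, hl⟩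
        subst hl
        have : k ∈ Gam T R l x := by
          rw [mem_Gam]; exact ⟨hkl, ht⟩
        rw [h2] at this; simpa using this
      · exact absurd ht (h1 k l hk hl hkl)
  · rintro ⟨h1, h2, h3⟩
    constructor
    · intro k l hk hl hkl ht
      rcases h3 k l hkl ht with h | h
      · exact hl h.2
      · exact hk h.1
    · ext k
      rw [mem_Gam]
      constructor
      · rintro ⟨hk, ht⟩
        rcases h3 k b hk ht with h | h
        · simp [h.1]
        · exact absurd h.1 hk
      · intro hk
        simp only [mem_singleton] at hk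
        subst hk; exact ⟨h1, h2⟩

theorem K_symm (hT : Sym3 T) {R : ι → V} {i b : ι} {x : V} (h : K T R i b x) :
    K T R b i x := by
  rw [K_iff hT] at h ⊢
  refine ⟨h.1.symm, hT.s12 _ _ _ h.2.1, ?_⟩
  intro k l hkl ht
  rcases h.2.2 k l hkl ht with h | h
  · right; exact h
  · left; exact h

/-- swap at the position `i` -/
theorem K_swap (hT : Sym3 T) {R : ι → V} {i b : ι} {x : V} (hR : Ind T R) (h : K T R i b x) :
    Ind T (Function.update R i x) ∧ K T (Function.update R i x) i b (R i) := by
  rw [K_iff hT] at h
  obtain ⟨hib, ht, hu⟩ := h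
  have key : ∀ q s, q ≠ i → s ≠ i → q ≠ s → ¬ T x (R q) (R s) := by
    intro q s hq hs hqs h
    rcases hu q s hqs (hT.rot h) with h | h
    · exact hq h.1
    · exact hs h.2
  constructor
  · intro p q s hpq hps hqs h
    by_cases hp : p = i
    · subst hp
      rw [Function.update_self, Function.update_of_ne hpq.symm, Function.update_of_ne hps.symm] at h
      exact key q s hpq.symm hps.symm hqs h
    · by_cases hq : q = i
      · subst hq
        rw [Function.update_self, Function.update_of_ne hpq, Function.update_of_ne hqs.symm] at h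
        exact key p s hpq hqs.symm hps (hT.s12 _ _ _ h)
      · by_cases hs : s = i
        · subst hs
          rw [Function.update_self, Function.update_of_ne hps, Function.update_of_ne hqs] at h
          exact key p q hps hqs hpq (hT.rot' h)
        · rw [Function.update_of_ne hp, Function.update_of_ne hq, Function.update_of_ne hs] at h
          exact hR p q s hpq hps hqs h
  · rw [K_iff hT]
    refine ⟨hib, ?_, ?_⟩
    · rw [Function.update_self, Function.update_of_ne hib.symm]
      exact hT.s13 ht
    · intro k l hkl h
      by_cases hk : k = i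
      · left
        refine ⟨hk, ?_⟩
        subst hk
        rw [Function.update_self, Function.update_of_ne hkl.symm] at h
        rcases hu k l hkl (hT.s13 h) with h | h
        · exact h.2
        · exact absurd h.1 hib
      · by_cases hl : l = i
        · right
          refine ⟨?_, hl⟩
          subst hl
          rw [Function.update_self, Function.update_of_ne hkl] at h
          rcases hu k l hkl (hT.s23 _ _ _ h) with h | h
          · exact absurd h.1 hkl
          · exact h.1
        · rw [Function.update_of_ne hk, Function.update_of_ne hl] at h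
          exact absurd h (hR k l i hkl hk hl)

theorem K_swap' (hT : Sym3 T) {R : ι → V} {i b : ι} {x : V} (hR : Ind T R) (h : K T R i b x) :
    Ind T (Function.update R b x) ∧ K T (Function.update R b x) i b (R b) := by
  have := K_swap hT hR (K_symm hT h)
  exact ⟨this.1, K_symm hT this.2⟩

theorem K_swap_iff (hT : Sym3 T) {R : ι → V} {i b : ι} {x : V} :
    (Ind T (Function.update R i x) ∧ K T (Function.update R i x) i b (R i)) ↔
      (Ind T R ∧ K T R i b x) := by
  constructor
  · rintro ⟨h1, h2⟩
    have := K_swap hT h1 h2
    simpa using this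
  · rintro ⟨h1, h2⟩
    exact K_swap hT h1 h2

theorem K_swap_iff' (hT : Sym3 T) {R : ι → V} {i b : ι} {x : V} :
    (Ind T (Function.update R b x) ∧ K T (Function.update R b x) i b (R b)) ↔
      (Ind T R ∧ K T R i b x) := by
  constructor
  · rintro ⟨h1, h2⟩
    have := K_swap' hT h1 h2
    simpa using this
  · rintro ⟨h1, h2⟩
    exact K_swap' hT h1 h2

/-- swap for `FreeOff` -/
theorem free_swap (hT : Sym3 T) {R : ι → V} {b : ι} {x : V} (hR : Ind T R)
    (h : FreeOff T R b x) :
    Ind T (Function.update R b x) ∧ FreeOff T (Function.update R b x) b (R b) := by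
  constructor
  · intro p q s hpq hps hqs h'
    by_cases hp : p = b
    · subst hp
      rw [Function.update_self, Function.update_of_ne hpq.symm, Function.update_of_ne hps.symm] at h'
      exact h q s hpq.symm hps.symm hqs (hT.rot h')
    · by_cases hq : q = b
      · subst hq
        rw [Function.update_self, Function.update_of_ne hpq, Function.update_of_ne hqs.symm] at h'
        exact h p s hpq hqs.symm hps (hT.s23 _ _ _ h')
      · by_cases hs : s = b
        · subst hs
          rw [Function.update_self, Function.update_of_ne hps, Function.update_of_ne hqs] at h'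
          exact h p q hps hqs hpq h'
        · rw [Function.update_of_ne hp, Function.update_of_ne hq, Function.update_of_ne hs] at h'
          exact hR p q s hpq hps hqs h'
  · intro k l hk hl hkl h'
    rw [Function.update_of_ne hk, Function.update_of_ne hl] at h'
    exact hR k l b hkl hk hl h'

theorem free_swap_iff (hT : Sym3 T) {R : ι → V} {b : ι} {x : V} :
    (Ind T (Function.update R b x) ∧ FreeOff T (Function.update R b x) b (R b)) ↔
      (Ind T R ∧ FreeOff T R b x) := by
  constructor
  · rintro ⟨h1, h2⟩
    have := free_swap hT h1 h2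
    simpa using this
  · rintro ⟨h1, h2⟩
    exact free_swap hT h1 h2

theorem Gam_swap (hT : Sym3 T) (R : ι → V) (b : ι) (x : V) :
    Gam T (Function.update R b x) b (R b) = Gam T R b x := by
  ext i
  rw [mem_Gam, mem_Gam]
  constructor
  · rintro ⟨h1, h2⟩
    rw [Function.update_self, Function.update_of_ne h1] at h2
    exact ⟨h1, hT.s23 _ _ _ h2⟩
  · rintro ⟨h1, h2⟩
    rw [Function.update_self, Function.update_of_ne h1]
    exact ⟨h1, hT.s23 _ _ _ h2⟩

/-- the exchange identity -/
theorem exch (b : ι) (F : (ι → V) → V → ℝ) :
    ∑ R, ∑ x, F R x = ∑ R, ∑ x, F (Function.update R b x) (R b) := by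
  rw [← Fintype.sum_prod_type', ← Fintype.sum_prod_type']
  let σ : (ι → V) × V ≃ (ι → V) × V :=
    { toFun := fun p => (Function.update p.1 b p.2, p.1 b)
      invFun := fun p => (Function.update p.1 b p.2, p.1 b)
      left_inv := by intro p; simp
      right_inv := by intro p; simp }
  exact (Equiv.sum_comp σ (fun p => F p.1 p.2)).symm

end

end Pool.Agent.Helper1.T3
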