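import Pool.Agent.Helper1.T3.Core

namespace Pool.Agent.Helper1.T3

open Finset
open scoped Classical

noncomputable section

variable {V : Type*} [Fintype V] {ι : Type*} [Fintype ι]
variable (T : V → V → V → Prop)

def dd (a y : V) : ℝ := ∑ x, ind (T a y x)
def doff (R : ι → V) (b : ι) (y : V) : ℝ := ∑ i, if i = b then 0 else dd T (R i) y
def dx (R : ι → V) (x : V) : ℝ := ∑ i, dd T (R i) x
def gc (R : ι → V) (b : ι) (x : V) : ℝ := ((Gam T R b x).card : ℝ)
def nn (R : ι → V) (b : ι) : ℝ := ∑ x, ind (FreeOff T R b x ∧ (Gam T R b x).card = 1)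
def sd (R : ι → V) (b : ι) : ℝ := ∑ x, ind (FreeOff T R b x ∧ 2 ≤ (Gam T R b x).card)
def mm (R : ι → V) (b : ι) : ℝ := ∑ x, ind (FreeOff T R b x) * min (gc T R b x) 2
def ka (R : ι → V) (i b : ι) : ℝ := ∑ x, ind (K T R i b x)
def de (R : ι → V) (b : ι) : ℝ := ∑ x, gc T R b x

def Fpair (R : ι → V) (x : V) (i b : ι) : Prop :=
  i ≠ b ∧ (∃ j, j ≠ i ∧ j ≠ b ∧ T (R j) (R b) x) ∧ (∃ l, l ≠ b ∧ l ≠ i ∧ T (R l) (R i) x) ∧
    ∀ k l, k ≠ l → T (R k) (R l) x → k = i ∨ k = b ∨ l = i ∨ l = b

def Fb (R : ι → V) (b : ι) (x : V) : Prop := ∃ i, Fpair T R x i b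
def ff (R : ι → V) (b : ι) : ℝ := ∑ x, ind (Fb T R b x)

/-- blocked, but no single position meets all blocking pairs -/
def QQ (R : ι → V) (x : V) : Prop := ¬ Free T R x ∧ ∀ b, ¬ FreeOff T R b x

def bl (R : ι → V) : ℝ := ∑ x, ind (¬ Free T R x)
def qq (R : ι → V) : ℝ := ∑ x, ind (QQ T R x)
def IR (R : ι → V) : ℝ := ∑ x, ind (¬ Free T R x) * dx T R x

theorem dd_nonneg (a y : V) : 0 ≤ dd T a y := sum_nonneg (fun _ _ => ind_nonneg _)
theorem dx_nonneg (R : ι → V) (x : V) : 0 ≤ dx T R x := sum_nonneg (fun _ _ => dd_nonneg T _ _)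
theorem doff_nonneg (R : ι → V) (b : ι) (x : V) : 0 ≤ doff T R b x := by
  apply sum_nonneg; intro i _; split
  · exact le_rfl
  · exact dd_nonneg T _ _
theorem gc_nonneg (R : ι → V) (b : ι) (x : V) : 0 ≤ gc T R b x := Nat.cast_nonneg _
theorem nn_nonneg (R : ι → V) (b : ι) : 0 ≤ nn T R b := sum_nonneg (fun _ _ => ind_nonneg _)
theorem sd_nonneg (R : ι → V) (b : ι) : 0 ≤ sd T R b := sum_nonneg (fun _ _ => ind_nonneg _)
theorem ka_nonneg (R : ι → V) (i b : ι) : 0 ≤ ka T R i b := sum_nonneg (fun _ _ => ind_nonneg _)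
theorem ff_nonneg (R : ι → V) (b : ι) : 0 ≤ ff T R b := sum_nonneg (fun _ _ => ind_nonneg _)

theorem gc_eq (R : ι → V) (b : ι) (x : V) :
    gc T R b x = ∑ i, ind (i ≠ b ∧ T (R i) (R b) x) := by
  unfold gc Gam ind
  rw [Finset.card_filter]
  push_cast
  apply sum_congr rfl
  intro i _
  congr

theorem dx_eq (R : ι → V) (b : ι) (x : V) : dx T R x = doff T R b x + dd T (R b) x := by
  unfold dx doff
  have h2 : dd T (R b) x = ∑ i, (if i = b then dd T (R i) x else 0) := by
    rw [Finset.sum_ite_eq' univ b]; simp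
  rw [h2, ← sum_add_distrib]
  apply sum_congr rfl
  intro i _
  by_cases h : i = b <;> simp [h]

theorem de_eq (R : ι → V) (b : ι) : doff T R b (R b) = de T R b := by
  unfold doff de
  simp only [gc_eq]
  rw [Finset.sum_comm]
  apply sum_congr rfl
  intro i _
  by_cases h : i = b
  · simp [h, ind]
  · simp only [if_neg h, dd]
    apply sum_congr rfl
    intro x _
    apply ind_congr; simp [h]

variable {T}

theorem nn_eq (R : ι → V) (b : ι) : nn T R b = ∑ i, ka T R i b := by
  unfold nn ka
  rw [sum_comm]
  apply sum_congr rfl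
  intro x _
  by_cases hf : FreeOff T R b x
  · by_cases hc : (Gam T R b x).card = 1
    · rw [ind_true ⟨hf, hc⟩]
      obtain ⟨a, ha⟩ := card_eq_one.1 hc
      rw [Finset.sum_eq_single a]
      · rw [ind_true]; exact ⟨hf, ha⟩
      · intro i _ hi
        apply ind_false
        rintro ⟨_, h⟩
        rw [ha] at h
        exact hi (Finset.singleton_injective h).symm
      · simp
    · rw [ind_false (fun h => hc h.2)]
      symm
      apply sum_eq_zero
      intro i _
      apply ind_false
      rintro ⟨_, h⟩
      exact hc (by rw [h]; simp)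
  · rw [ind_false (fun h => hf h.1)]
    symm
    apply sum_eq_zero
    intro i _
    apply ind_false
    rintro ⟨h, _⟩
    exact hf h

theorem mm_eq (R : ι → V) (b : ι) : mm T R b = nn T R b + 2 * sd T R b := by
  unfold mm nn sd
  rw [mul_sum, ← sum_add_distrib]
  apply sum_congr rfl
  intro x _
  by_cases hf : FreeOff T R b x
  · rw [ind_true hf, one_mul]
    rcases Nat.lt_or_ge (Gam T R b x).card 2 with h | h
    · have : (Gam T R b x).card = 0 ∨ (Gam T R b x).card = 1 := by omega
      rcases this with h0 | h1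
      · rw [ind_false (by omega), ind_false (by omega)]
        simp [gc, h0]
      · rw [ind_true ⟨hf, h1⟩, ind_false (by omega)]
        simp [gc, h1]
    · rw [ind_false (by omega), ind_true ⟨hf, h⟩, min_eq_right]
      · ring
      · unfold gc; exact_mod_cast h
  · rw [ind_false hf, ind_false (fun h => hf h.1), ind_false (fun h => hf h.1)]; ring

theorem de_ge (R : ι → V) (b : ι) : mm T R b + ff T R b ≤ de T R b := by
  unfold mm ff de
  rw [← sum_add_distrib]
  apply sum_le_sum
  intro x _
  by_cases h : Fb T R b x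
  · obtain ⟨i, h1, ⟨j, hj1, hj2, hj3⟩, ⟨l, hl1, hl2, hl3⟩, h4⟩ := h
    have hnf : ¬ FreeOff T R b x := fun hf => hf l i hl1 h1 hl2 hl3
    rw [ind_false hnf, zero_mul, zero_add]
    refine (ind_le_one _).trans ?_
    have : 0 < (Gam T R b x).card := by
      rw [card_pos]
      exact ⟨j, (mem_Gam T).2 ⟨hj2, hj3⟩⟩
    unfold gc
    exact_mod_cast this
  · rw [ind_false h, add_zero]
    have h0 := gc_nonneg T R b x
    have h1 := ind_le_one (FreeOff T R b x)
    have h2 := ind_nonneg (FreeOff T R b x)
    have h3 : min (gc T R b x) 2 ≤ gc T R b x := min_le_left _ _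
    have h4 : 0 ≤ min (gc T R b x) 2 := le_min h0 (by norm_num)
    nlinarith

theorem Gam_nonempty_of {R : ι → V} {b : ι} {x : V} (hT : Sym3 T) (h : ¬ Free T R x)
    (hb : FreeOff T R b x) : (Gam T R b x).Nonempty := by
  unfold Free at h
  push Not at h
  obtain ⟨p, q, hpq, ht⟩ := h
  by_cases hp : p = b
  · subst hp
    exact ⟨q, (mem_Gam T).2 ⟨hpq.symm, hT.s12 _ _ _ ht⟩⟩
  · by_cases hq : q = b
    · subst hq
      exact ⟨p, (mem_Gam T).2 ⟨hpq, ht⟩⟩
    · exact absurd ht (hb p q hp hq hpq)

theorem Gam_empty_of {R : ι → V} {b : ι} {x : V} (h : Free T R x) : Gam T R b x = ∅ := by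
  apply Finset.eq_empty_of_forall_notMem
  intro i hi
  rw [mem_Gam] at hi
  exact h i b hi.1 hi.2

theorem P1 (hT : Sym3 T) (R : ι → V) (x : V) :
    ∑ b, ind (FreeOff T R b x) * min (gc T R b x) 2 = 2 * (ind (¬ Free T R x) - ind (QQ T R x)) := by
  by_cases hF : Free T R x
  · rw [ind_false (fun h => h hF), ind_false (fun h => h.1 hF)]
    rw [sub_zero, mul_zero]
    apply sum_eq_zero
    intro b _
    simp [gc, Gam_empty_of hF]
  · rw [ind_true hF]
    by_cases hQ : ∀ b, ¬ FreeOff T R b x
    · rw [ind_true ⟨hF, hQ⟩]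
      rw [sub_self, mul_zero]
      apply sum_eq_zero
      intro b _
      rw [ind_false (hQ b), zero_mul]
    · rw [ind_false (fun h => hQ h.2)]
      push Not at hQ
      obtain ⟨b, hb⟩ := hQ
      have hne := Gam_nonempty_of hT hF hb
      rcases Nat.lt_or_ge (Gam T R b x).card 2 with h | h
      · have h1 : (Gam T R b x).card = 1 := by
          have := hne.card_pos; omega
        obtain ⟨i, hi⟩ := card_eq_one.1 h1
        have hK : K T R i b x := ⟨hb, hi⟩
        have hK' : K T R b i x := K_symm hT hK
        have hib : i ≠ b := ((K_iff hT).1 hK).1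
        have ht : T (R i) (R b) x := ((K_iff hT).1 hK).2.1
        have : ∑ k, ind (FreeOff T R k x) * min (gc T R k x) 2
            = ∑ k ∈ ({i, b} : Finset ι), ind (FreeOff T R k x) * min (gc T R k x) 2 := by
          symm
          apply sum_subset (subset_univ _)
          intro k _ hk
          simp only [mem_insert, mem_singleton, not_or] at hk
          rw [ind_false, zero_mul]
          intro hf
          exact hf i b (Ne.symm hk.1) (Ne.symm hk.2) hib ht
        rw [this, sum_pair hib, ind_true hb, ind_true hK'.1]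
        simp only [gc, hi, hK'.2, card_singleton]
        norm_num
      · rw [Finset.sum_eq_single b]
        · rw [ind_true hb, min_eq_right]
          · ring
          · unfold gc; exact_mod_cast h
        · intro k _ hk
          rw [ind_false, zero_mul]
          intro hf
          obtain ⟨i, hi, hik⟩ := exists_mem_ne h k
          rw [mem_Gam] at hi
          exact hf i b hik hk.symm hi.1 hi.2
        · simp

/-- four distinct ordered blocking pairs -/
theorem sum_gc_ge_of (R : ι → V) (x : V) (S : Finset (ι × ι))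
    (hS : ∀ p ∈ S, p.1 ≠ p.2 ∧ T (R p.1) (R p.2) x) : (S.card : ℝ) ≤ ∑ b, gc T R b x := by
  simp only [gc_eq]
  rw [Finset.sum_comm, ← Fintype.sum_prod_type' (f := fun i b => ind (i ≠ b ∧ T (R i) (R b) x))]
  calc (S.card : ℝ) = ∑ p ∈ S, ind (p.1 ≠ p.2 ∧ T (R p.1) (R p.2) x) := by
        rw [sum_congr rfl (fun p hp => ind_true (hS p hp))]; simp
    _ ≤ _ := by
        apply sum_le_sum_of_subset_of_nonneg (subset_univ _)
        intro p _ _; exact ind_nonneg _

theorem card4 {p q k l : ι} (hpq : p ≠ q) (hkl : k ≠ l) (hpk : p ≠ k) (hpl : p ≠ l) :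
    (({(p, q), (q, p), (k, l), (l, k)} : Finset (ι × ι)).card : ℝ) = 4 := by
  rw [card_insert_of_notMem, card_insert_of_notMem, card_insert_of_notMem, card_singleton]
  · norm_num
  · simp only [mem_singleton, Prod.mk.injEq]; tauto
  · simp only [mem_insert, mem_singleton, Prod.mk.injEq]; tauto
  · simp only [mem_insert, mem_singleton, Prod.mk.injEq]; tauto

theorem P4 (hT : Sym3 T) (R : ι → V) (x : V) :
    2 * ind (¬ Free T R x) + 2 * ∑ b, ind (FreeOff T R b x ∧ 2 ≤ (Gam T R b x).card)
      + 2 * ind (QQ T R x) ≤ ∑ b, gc T R b x := by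
  by_cases hF : Free T R x
  · rw [ind_false (fun h => h hF), ind_false (fun h => h.1 hF)]
    have : ∑ b, ind (FreeOff T R b x ∧ 2 ≤ (Gam T R b x).card) = 0 := by
      apply sum_eq_zero
      intro b _
      apply ind_false
      rintro ⟨_, h⟩
      rw [Gam_empty_of hF] at h
      simp at h
    rw [this]
    have := sum_nonneg (fun b (_ : b ∈ univ) => gc_nonneg T R b x)
    linarith
  · rw [ind_true hF]
    by_cases hQ : ∀ b, ¬ FreeOff T R b x
    · rw [ind_true ⟨hF, hQ⟩]
      have h0 : ∑ b, ind (FreeOff T R b x ∧ 2 ≤ (Gam T R b x).card) = 0 := by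
        apply sum_eq_zero
        intro b _
        exact ind_false (fun h => hQ b h.1)
      rw [h0]
      have hF' := hF
      unfold Free at hF'
      push Not at hF'
      obtain ⟨p, q, hpq, ht⟩ := hF'
      have hp := hQ p
      unfold FreeOff at hp
      push Not at hp
      obtain ⟨k, l, hk, hl, hkl, ht'⟩ := hp
      have := sum_gc_ge_of (T := T) R x {(p, q), (q, p), (k, l), (l, k)} (by
        intro r hr
        simp only [mem_insert, mem_singleton] at hr
        rcases hr with rfl | rfl | rfl | rfl
        · exact ⟨hpq, ht⟩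
        · exact ⟨hpq.symm, hT.s12 _ _ _ ht⟩
        · exact ⟨hkl, ht'⟩
        · exact ⟨hkl.symm, hT.s12 _ _ _ ht'⟩)
      rw [card4 hpq hkl hk.symm hl.symm] at this
      linarith
    · rw [ind_false (fun h => hQ h.2)]
      push Not at hQ
      obtain ⟨b, hb⟩ := hQ
      have hne := Gam_nonempty_of hT hF hb
      rcases Nat.lt_or_ge (Gam T R b x).card 2 with h | h
      · have h1 : (Gam T R b x).card = 1 := by
          have := hne.card_pos; omega
        obtain ⟨i, hi⟩ := card_eq_one.1 h1
        have hK : K T R i b x := ⟨hb, hi⟩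
        have hK' : K T R b i x := K_symm hT hK
        have hib : i ≠ b := ((K_iff hT).1 hK).1
        have ht : T (R i) (R b) x := ((K_iff hT).1 hK).2.1
        have h0 : ∑ b, ind (FreeOff T R b x ∧ 2 ≤ (Gam T R b x).card) = 0 := by
          apply sum_eq_zero
          intro k _
          apply ind_false
          rintro ⟨hf, hc⟩
          by_cases hkb : k = b
          · subst hkb; omega
          · by_cases hki : k = i
            · subst hki; rw [hK'.2] at hc; simp at hc
            · exact hf i b (Ne.symm hki) (Ne.symm hkb) hib ht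
        rw [h0]
        have := sum_gc_ge_of (T := T) R x {(i, b), (b, i)} (by
          intro r hr
          simp only [mem_insert, mem_singleton] at hr
          rcases hr with rfl | rfl
          · exact ⟨hib, ht⟩
          · exact ⟨hib.symm, hT.s12 _ _ _ ht⟩)
        rw [card_pair (by simp [hib])] at this
        push_cast at this
        linarith
      · have h0 : ∑ k, ind (FreeOff T R k x ∧ 2 ≤ (Gam T R k x).card) ≤ 1 := by
          rw [Finset.sum_eq_single b]
          · exact ind_le_one _
          · intro k _ hk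
            rw [ind_false]
            rintro ⟨hf, _⟩
            obtain ⟨i, hi, hik⟩ := exists_mem_ne h k
            rw [mem_Gam] at hi
            exact hf i b hik hk.symm hi.1 hi.2
          · simp
        obtain ⟨i, hi, j, hj, hij⟩ := one_lt_card.1 h
        rw [mem_Gam] at hi hj
        have := sum_gc_ge_of (T := T) R x {(i, b), (b, i), (j, b), (b, j)} (by
          intro r hr
          simp only [mem_insert, mem_singleton] at hr
          rcases hr with rfl | rfl | rfl | rfl
          · exact hi
          · exact ⟨hi.1.symm, hT.s12 _ _ _ hi.2⟩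
          · exact hj
          · exact ⟨hj.1.symm, hT.s12 _ _ _ hj.2⟩)
        rw [card4 hi.1 hj.1 hij hi.1] at this
        linarith

/-- summed versions -/
theorem sum_mm (hT : Sym3 T) (R : ι → V) :
    ∑ b, mm T R b = 2 * (bl T R - qq T R) := by
  unfold mm bl qq
  rw [sum_comm, ← sum_sub_distrib, mul_sum]
  apply sum_congr rfl
  intro x _
  exact P1 hT R x

theorem sum_de (hT : Sym3 T) (R : ι → V) :
    2 * bl T R + 2 * ∑ b, sd T R b + 2 * qq T R ≤ ∑ b, de T R b := by
  unfold bl sd qq de
  rw [sum_comm (f := fun b x => ind (FreeOff T R b x ∧ 2 ≤ (Gam T R b x).card)),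
    sum_comm (f := fun b x => gc T R b x), mul_sum, mul_sum, mul_sum, ← sum_add_distrib,
    ← sum_add_distrib]
  apply sum_le_sum
  intro x _
  exact P4 hT R x

theorem two_IR (hT : Sym3 T) (R : ι → V) :
    (∑ b, ∑ x, ind (FreeOff T R b x) * min (gc T R b x) 2 * doff T R b x)
      + ∑ b, ∑ x, ind (FreeOff T R b x ∧ (Gam T R b x).card = 1) * dd T (R b) x
      ≤ 2 * IR T R := by
  rw [← sum_add_distrib]
  have h1 : ∀ b, (∑ x, ind (FreeOff T R b x) * min (gc T R b x) 2 * doff T R b x)
      + ∑ x, ind (FreeOff T R b x ∧ (Gam T R b x).card = 1) * dd T (R b) x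
      ≤ ∑ x, ind (FreeOff T R b x) * min (gc T R b x) 2 * dx T R x := by
    intro b
    rw [← sum_add_distrib]
    apply sum_le_sum
    intro x _
    rw [dx_eq T R b x]
    have hd := dd_nonneg T (R b) x
    have : ind (FreeOff T R b x ∧ (Gam T R b x).card = 1)
        ≤ ind (FreeOff T R b x) * min (gc T R b x) 2 := by
      rw [ind_and]
      apply mul_le_mul_of_nonneg_left _ (ind_nonneg _)
      by_cases hc : (Gam T R b x).card = 1
      · rw [ind_true hc]; simp [gc, hc]
      · rw [ind_false hc]; exact le_min (gc_nonneg _ _ _ _) (by norm_num)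
    nlinarith
  refine (sum_le_sum (fun b _ => h1 b)).trans ?_
  rw [sum_comm]
  unfold IR
  rw [mul_sum]
  apply sum_le_sum
  intro x _
  rw [← sum_mul, P1 hT R x]
  have := dx_nonneg T R x
  have := ind_nonneg (QQ T R x)
  nlinarith [mul_nonneg (ind_nonneg (QQ T R x)) (dx_nonneg T R x)]

/-- exchange for the main term -/
theorem S1 (hT : Sym3 T) :
    ∑ R : ι → V, ind (Ind T R) *
      ∑ b, ∑ x, ind (FreeOff T R b x) * min (gc T R b x) 2 * doff T R b x
      = ∑ R : ι → V, ind (Ind T R) * ∑ b, mm T R b * de T R b := by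
  simp only [mul_sum]
  rw [sum_comm]
  rw [sum_comm (f := fun (R : ι → V) b => ind (Ind T R) * (mm T R b * de T R b))]
  apply sum_congr rfl
  intro b _
  rw [exch b]
  apply sum_congr rfl
  intro R _
  unfold mm
  rw [sum_mul, mul_sum]
  apply sum_congr rfl
  intro x _
  have h1 : ind (Ind T (Function.update R b x)) * ind (FreeOff T (Function.update R b x) b (R b))
      = ind (Ind T R) * ind (FreeOff T R b x) := by
    rw [← ind_and, ← ind_and]
    exact ind_congr (free_swap_iff hT)
  have h2 : gc T (Function.update R b x) b (R b) = gc T R b x := by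
    unfold gc; rw [Gam_swap hT]
  have h3 : doff T (Function.update R b x) b (R b) = de T R b := by
    rw [← de_eq]
    unfold doff
    apply sum_congr rfl
    intro i _
    by_cases h : i = b
    · simp [h]
    · rw [if_neg h, if_neg h, Function.update_of_ne h]
  rw [h2, h3]
  calc _ = (ind (Ind T (Function.update R b x)) * ind (FreeOff T (Function.update R b x) b (R b)))
        * (min (gc T R b x) 2 * de T R b) := by ring
    _ = _ := by rw [h1]; ring

theorem S2 (hT : Sym3 T) :
    ∑ R : ι → V, ind (Ind T R) * ∑ b, ∑ i, ka T R i b ^ 2 ≤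
    ∑ R : ι → V, ind (Ind T R) *
      ∑ b, ∑ x, ind (FreeOff T R b x ∧ (Gam T R b x).card = 1) * dd T (R b) x := by
  have e1 : ∀ (R : ι → V) (b : ι),
      ∑ x, ind (FreeOff T R b x ∧ (Gam T R b x).card = 1) * dd T (R b) x
        = ∑ i, ∑ x, ind (K T R i b x) * dd T (R b) x := by
    intro R b
    rw [sum_comm]
    apply sum_congr rfl
    intro x _
    rw [← sum_mul]
    congr 1
    by_cases hf : FreeOff T R b x
    · by_cases hc : (Gam T R b x).card = 1
      · rw [ind_true ⟨hf, hc⟩]
        obtain ⟨a, ha⟩ := card_eq_one.1 hc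
        rw [Finset.sum_eq_single a]
        · rw [ind_true]; exact ⟨hf, ha⟩
        · intro i _ hi
          apply ind_false
          rintro ⟨_, h⟩
          rw [ha] at h
          exact hi (Finset.singleton_injective h).symm
        · simp
      · rw [ind_false (fun h => hc h.2)]
        symm
        apply sum_eq_zero
        intro i _
        apply ind_false
        rintro ⟨_, h⟩
        exact hc (by rw [h]; simp)
    · rw [ind_false (fun h => hf h.1)]
      symm
      apply sum_eq_zero
      intro i _
      apply ind_false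
      rintro ⟨h, _⟩
      exact hf h
  simp only [e1, mul_sum]
  rw [sum_comm]
  rw [sum_comm (f := fun (R : ι → V) b => ∑ i, ∑ x, ind (Ind T R) * (ind (K T R i b x) * dd T (R b) x))]
  apply sum_le_sum
  intro b _
  rw [sum_comm]
  rw [sum_comm (f := fun (R : ι → V) i => ∑ x, ind (Ind T R) * (ind (K T R i b x) * dd T (R b) x))]
  apply sum_le_sum
  intro i _
  rw [exch i]
  apply sum_le_sum
  intro R _
  by_cases hib : i = b
  · have hk : ∀ x, ¬ K T R i b x := fun x h => ((K_iff hT).1 h).1 hib
    have : ka T R i b = 0 := by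
      unfold ka
      apply sum_eq_zero
      intro x _
      exact ind_false (hk x)
    rw [this]
    simp only [ne_eq, OfNat.ofNat_ne_zero, not_false_eq_true, zero_pow, mul_zero]
    apply sum_nonneg
    intro x _
    exact mul_nonneg (ind_nonneg _) (mul_nonneg (ind_nonneg _) (dd_nonneg T _ _))
  · have h1 : ∀ x, ind (Ind T (Function.update R i x)) *
        (ind (K T (Function.update R i x) i b (R i)) * dd T (Function.update R i x b) (R i))
        = ind (Ind T R) * (ind (K T R i b x) * dd T (R b) (R i)) := by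
      intro x
      rw [Function.update_of_ne (Ne.symm hib), ← mul_assoc, ← mul_assoc, ← ind_and, ← ind_and,
        ind_congr (K_swap_iff hT)]
    simp only [h1]
    rw [← mul_sum, ← sum_mul]
    apply mul_le_mul_of_nonneg_left _ (ind_nonneg _)
    rw [pow_two]
    apply mul_le_mul_of_nonneg_left _ (ka_nonneg T R i b)
    unfold ka dd
    apply sum_le_sum
    intro y _
    apply ind_mono
    intro h
    exact hT.s12 _ _ _ ((K_iff hT).1 h).2.1

end

end Pool.Agent.Helper1.T3
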