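import Pool.Agent.Helper1.T3.Core2

namespace Pool.Agent.Helper1.T3

open Finset
open scoped Classical

noncomputable section

variable {V : Type*} [Fintype V] {ι : Type*} [Fintype ι]
variable (T : V → V → V → Prop)

def Opn (R : ι → V) (b : ι) (x z : V) : Prop := ∀ l, l ≠ b → ¬ T (R l) x z
def AA (R : ι → V) (b i : ι) (x z : V) : Prop :=
  T (R i) x z ∧ ∀ l, l ≠ b → T (R l) x z → l = i
def XX (R : ι → V) (b i : ι) (x z : V) : Prop := ∃ l, l ≠ b ∧ l ≠ i ∧ T (R l) x z

/-- sum over pairs of differently coloured neighbours -/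
def SS (P : (ι → V) → ι → ι → ι → V → V → Prop) : ℝ :=
  ∑ b, ∑ i, ∑ R : ι → V, ∑ x, ∑ j, ∑ z,
    ind (Ind T R ∧ K T R i b x) * ind (i ≠ j ∧ K T R j b z ∧ P R b i j x z)

variable {T}

theorem sum_ind_le {α : Type*} [Fintype α] (P : α → Prop) (Q : Prop)
    (h1 : ∀ i, P i → Q) (h2 : ∀ i j, P i → P j → i = j) : ∑ i, ind (P i) ≤ ind Q := by
  by_cases h : ∃ i, P i
  · obtain ⟨i, hi⟩ := h
    rw [Finset.sum_eq_single i]
    · rw [ind_true hi, ind_true (h1 i hi)]
    · intro j _ hj
      exact ind_false (fun hjj => hj (h2 j i hjj hi))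
    · simp
  · push Not at h
    rw [sum_eq_zero (fun i _ => ind_false (h i))]
    exact ind_nonneg _

theorem SS_mono {P Q : (ι → V) → ι → ι → ι → V → V → Prop}
    (h : ∀ R b i j x z, Ind T R → K T R i b x → i ≠ j → K T R j b z → P R b i j x z → Q R b i j x z) :
    SS T P ≤ SS T Q := by
  unfold SS
  refine sum_le_sum (fun b _ => sum_le_sum (fun i _ => sum_le_sum (fun R _ => sum_le_sum
    (fun x _ => sum_le_sum (fun j _ => sum_le_sum (fun z _ => ?_))))))
  rw [← ind_and, ← ind_and]
  apply ind_mono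
  rintro ⟨⟨h1, h2⟩, h3, h4, h5⟩
  exact ⟨⟨h1, h2⟩, h3, h4, h R b i j x z h1 h2 h3 h4 h5⟩

theorem sum4_swap (F : ι → V → ι → V → ℝ) :
    ∑ i, ∑ x, ∑ j, ∑ z, F i x j z = ∑ i, ∑ x, ∑ j, ∑ z, F j z i x := by
  have e : ∀ G : ι → V → ι → V → ℝ, ∑ i, ∑ x, ∑ j, ∑ z, G i x j z
      = ∑ p : ι × V, ∑ q : ι × V, G p.1 p.2 q.1 q.2 := by
    intro G
    rw [Fintype.sum_prod_type]
    refine sum_congr rfl (fun i _ => sum_congr rfl (fun x _ => ?_))
    rw [Fintype.sum_prod_type]
  rw [e, e, sum_comm]

theorem SS_swap (P : (ι → V) → ι → ι → ι → V → V → Prop) :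
    SS T P = SS T (fun R b i j x z => P R b j i z x) := by
  unfold SS
  refine sum_congr rfl (fun b _ => ?_)
  rw [sum_comm]
  rw [sum_comm (f := fun i (R : ι → V) => ∑ x, ∑ j, ∑ z,
    ind (Ind T R ∧ K T R i b x) * ind (i ≠ j ∧ K T R j b z ∧ P R b j i z x))]
  refine sum_congr rfl (fun R _ => ?_)
  rw [sum4_swap]
  refine sum_congr rfl (fun i _ => sum_congr rfl (fun x _ => sum_congr rfl
    (fun j _ => sum_congr rfl (fun z _ => ?_))))
  rw [← ind_and, ← ind_and]
  apply ind_congr
  constructor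
  · rintro ⟨⟨h1, h2⟩, h3, h4, h5⟩; exact ⟨⟨h1, h4⟩, h3.symm, h2, h5⟩
  · rintro ⟨⟨h1, h2⟩, h3, h4, h5⟩; exact ⟨⟨h1, h4⟩, h3.symm, h2, h5⟩

theorem nn_eq' (R : ι → V) (b : ι) : nn T R b = ∑ i, ∑ x, ind (K T R i b x) := nn_eq R b

theorem N2_le (hT : Sym3 T) :
    ∑ R : ι → V, ind (Ind T R) * ∑ b, nn T R b ^ 2 ≤
      (∑ R : ι → V, ind (Ind T R) * ∑ b, ∑ i, ka T R i b ^ 2)
      + SS T (fun (R : ι → V) b _ _ x z => Opn T R b x z)
      + SS T (fun (R : ι → V) b i _ x z => AA T R b i x z)
      + SS T (fun (R : ι → V) b i _ x z => XX T R b i x z) := by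
  -- everything at fixed b, R
  have key : ∀ (R : ι → V) (b : ι), ind (Ind T R) * nn T R b ^ 2 ≤
      ind (Ind T R) * (∑ i, ka T R i b ^ 2)
      + (∑ i, ∑ x, ∑ j, ∑ z, ind (Ind T R ∧ K T R i b x) *
          ind (i ≠ j ∧ K T R j b z ∧ Opn T R b x z))
      + (∑ i, ∑ x, ∑ j, ∑ z, ind (Ind T R ∧ K T R i b x) *
          ind (i ≠ j ∧ K T R j b z ∧ AA T R b i x z))
      + (∑ i, ∑ x, ∑ j, ∑ z, ind (Ind T R ∧ K T R i b x) *
          ind (i ≠ j ∧ K T R j b z ∧ XX T R b i x z)) := by
    intro R b
    have e1 : ind (Ind T R) * nn T R b ^ 2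
        = ∑ i, ∑ x, ∑ j, ∑ z, ind (Ind T R ∧ K T R i b x) * ind (K T R j b z) := by
      rw [pow_two, nn_eq', sum_mul, mul_sum]
      refine sum_congr rfl (fun i _ => ?_)
      rw [sum_mul, mul_sum]
      refine sum_congr rfl (fun x _ => ?_)
      rw [mul_sum, mul_sum]
      refine sum_congr rfl (fun j _ => ?_)
      rw [mul_sum, mul_sum]
      refine sum_congr rfl (fun z _ => ?_)
      rw [ind_and]; ring
    have e2 : ind (Ind T R) * (∑ i, ka T R i b ^ 2)
        = ∑ i, ∑ x, ∑ j, ∑ z, ind (Ind T R ∧ K T R i b x) * ind (i = j ∧ K T R j b z) := by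
      rw [mul_sum]
      refine sum_congr rfl (fun i _ => ?_)
      rw [pow_two]
      conv_lhs => rw [show ka T R i b * ka T R i b = (∑ x, ind (K T R i b x)) * ka T R i b from rfl]
      rw [sum_mul, mul_sum]
      refine sum_congr rfl (fun x _ => ?_)
      rw [Finset.sum_eq_single i]
      · unfold ka
        rw [mul_sum, mul_sum]
        refine sum_congr rfl (fun z _ => ?_)
        rw [ind_and, ind_and, ind_true rfl]; ring
      · intro j _ hj
        apply sum_eq_zero
        intro z _
        rw [ind_false (p := i = j ∧ K T R j b z) (fun h => hj h.1.symm), mul_zero]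
      · simp
    rw [e1, e2]
    simp only [← sum_add_distrib]
    refine sum_le_sum (fun i _ => sum_le_sum (fun x _ => sum_le_sum
      (fun j _ => sum_le_sum (fun z _ => ?_))))
    rw [← mul_add, ← mul_add, ← mul_add]
    apply mul_le_mul_of_nonneg_left _ (ind_nonneg _)
    by_cases hK : K T R j b z
    · by_cases hij : i = j
      · rw [ind_true (p := i = j ∧ K T R j b z) ⟨hij, hK⟩]
        have h1 := ind_le_one (K T R j b z)
        have h2 := ind_nonneg (i ≠ j ∧ K T R j b z ∧ Opn T R b x z)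
        have h3 := ind_nonneg (i ≠ j ∧ K T R j b z ∧ AA T R b i x z)
        have h4 := ind_nonneg (i ≠ j ∧ K T R j b z ∧ XX T R b i x z)
        linarith
      · have h1 := ind_le_one (K T R j b z)
        have h0 := ind_nonneg (i = j ∧ K T R j b z)
        have h2 := ind_nonneg (i ≠ j ∧ K T R j b z ∧ Opn T R b x z)
        have h3 := ind_nonneg (i ≠ j ∧ K T R j b z ∧ AA T R b i x z)
        have h4 := ind_nonneg (i ≠ j ∧ K T R j b z ∧ XX T R b i x z)
        by_cases hO : Opn T R b x z
        · rw [ind_true (p := i ≠ j ∧ K T R j b z ∧ Opn T R b x z) ⟨hij, hK, hO⟩]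
          linarith
        · by_cases hX : XX T R b i x z
          · rw [ind_true (p := i ≠ j ∧ K T R j b z ∧ XX T R b i x z) ⟨hij, hK, hX⟩]
            linarith
          · have hA : AA T R b i x z := by
              unfold Opn at hO
              push Not at hO
              obtain ⟨l, hl, ht⟩ := hO
              unfold XX at hX
              push Not at hX
              have hli : l = i := by
                by_contra h
                exact hX l hl h ht
              refine ⟨hli ▸ ht, ?_⟩
              intro k hk htk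
              by_contra h
              exact hX k hk h htk
            rw [ind_true (p := i ≠ j ∧ K T R j b z ∧ AA T R b i x z) ⟨hij, hK, hA⟩]
            linarith
    · rw [ind_false hK]
      have h0 := ind_nonneg (i = j ∧ K T R j b z)
      have h2 := ind_nonneg (i ≠ j ∧ K T R j b z ∧ Opn T R b x z)
      have h3 := ind_nonneg (i ≠ j ∧ K T R j b z ∧ AA T R b i x z)
      have h4 := ind_nonneg (i ≠ j ∧ K T R j b z ∧ XX T R b i x z)
      linarith
  have conv : ∀ P : (ι → V) → ι → ι → ι → V → V → Prop,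
      SS T P = ∑ R : ι → V, ∑ b, ∑ i, ∑ x, ∑ j, ∑ z,
        ind (Ind T R ∧ K T R i b x) * ind (i ≠ j ∧ K T R j b z ∧ P R b i j x z) := by
    intro P
    unfold SS
    rw [sum_comm (s := (univ : Finset (ι → V)))]
    refine sum_congr rfl (fun b _ => ?_)
    rw [sum_comm]
  rw [conv, conv, conv]
  rw [← sum_add_distrib, ← sum_add_distrib, ← sum_add_distrib]
  refine sum_le_sum (fun R _ => ?_)
  rw [mul_sum, mul_sum, ← sum_add_distrib, ← sum_add_distrib, ← sum_add_distrib]
  exact sum_le_sum (fun b _ => key R b)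

theorem AA_swap : SS T (fun (R : ι → V) b i _ x z => AA T R b i x z)
    = SS T (fun (R : ι → V) b _ j x z => AA T R b j z x) := by
  rw [SS_swap]

theorem AA_le_XX (hT : Sym3 T) : SS T (fun (R : ι → V) b i _ x z => AA T R b i x z)
    ≤ SS T (fun (R : ι → V) b i _ x z => XX T R b i x z) := by
  rw [AA_swap]
  apply SS_mono
  intro R b i j x z _ _ hij hK h
  exact ⟨j, ((K_iff hT).1 hK).1, hij.symm, hT.s23 _ _ _ h.1⟩

theorem K_unique (hT : Sym3 T) {R : ι → V} {i j b : ι} {x : V} (h1 : K T R i b x)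
    (h2 : K T R j b x) : i = j := by
  have := h1.2.symm.trans h2.2
  exact Finset.singleton_injective this

/-- exchange at `b`: closed pairs with the third colour equal to the first colour -/
theorem AA_le_J (hT : Sym3 T) : SS T (fun (R : ι → V) b i _ x z => AA T R b i x z)
    ≤ ∑ R : ι → V, ind (Ind T R) * ∑ b, ∑ i, ka T R i b ^ 2 := by
  have e : ∑ R : ι → V, ind (Ind T R) * ∑ b, ∑ i, ka T R i b ^ 2
      = ∑ b, ∑ i, ∑ R : ι → V, ind (Ind T R) * ka T R i b ^ 2 := by
    simp only [mul_sum]
    rw [sum_comm]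
    refine sum_congr rfl (fun b _ => ?_)
    rw [sum_comm]
  rw [e]
  unfold SS
  refine sum_le_sum (fun b _ => sum_le_sum (fun i _ => ?_))
  have h1 : ∀ (R : ι → V) (x : V), ∑ j, ∑ z, ind (Ind T R ∧ K T R i b x) *
      ind (i ≠ j ∧ K T R j b z ∧ AA T R b i x z) ≤
      ind (Ind T R ∧ K T R i b x) * ka T (Function.update R b x) i b := by
    intro R x
    by_cases hc : Ind T R ∧ K T R i b x
    · obtain ⟨hR, hK⟩ := hc
      rw [ind_true ⟨hR, hK⟩, one_mul]
      simp only [one_mul]
      rw [sum_comm]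
      unfold ka
      apply sum_le_sum
      intro z _
      apply sum_ind_le
      · rintro j ⟨hij, hKj, hA⟩
        have hKi := (K_iff hT).1 hK
        have hKj' := (K_iff hT).1 hKj
        rw [K_iff hT]
        refine ⟨hKi.1, ?_, ?_⟩
        · rw [Function.update_self, Function.update_of_ne hKi.1]
          exact hA.1
        · intro k l hkl ht
          by_cases hk : k = b
          · right
            refine ⟨hk, ?_⟩
            subst hk
            rw [Function.update_self, Function.update_of_ne hkl.symm] at ht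
            exact hA.2 l hkl.symm (hT.s12 _ _ _ ht)
          · by_cases hl : l = b
            · left
              refine ⟨?_, hl⟩
              subst hl
              rw [Function.update_self, Function.update_of_ne hk] at ht
              exact hA.2 k hk ht
            · rw [Function.update_of_ne hk, Function.update_of_ne hl] at ht
              exact absurd ht (hKj.1 k l hk hl hkl)
      · rintro j j' ⟨_, h, _⟩ ⟨_, h', _⟩
        exact K_unique hT h h'
    · rw [ind_false hc, zero_mul]
      simp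
  refine (sum_le_sum (fun R _ => sum_le_sum (fun x _ => h1 R x))).trans ?_
  rw [exch b]
  refine sum_le_sum (fun R _ => ?_)
  have h2 : ∀ x, ind (Ind T (Function.update R b x) ∧ K T (Function.update R b x) i b (R b)) *
      ka T (Function.update (Function.update R b x) b (R b)) i b
      = ind (Ind T R) * (ind (K T R i b x) * ka T R i b) := by
    intro x
    rw [ind_congr (K_swap_iff' hT), ind_and]
    simp
    ring
  simp only [h2]
  rw [← mul_sum, ← sum_mul]
  apply le_of_eq
  rw [pow_two]; rfl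

/-- exchange at `i`: all other closed pairs -/
theorem XX_le (hT : Sym3 T) : SS T (fun (R : ι → V) b i _ x z => XX T R b i x z)
    ≤ ∑ R : ι → V, ind (Ind T R) * ∑ b, nn T R b * ff T R b := by
  have e : ∑ R : ι → V, ind (Ind T R) * ∑ b, nn T R b * ff T R b
      = ∑ b, ∑ i, ∑ R : ι → V, ind (Ind T R) * (ka T R i b * ff T R b) := by
    simp only [nn_eq, mul_sum, sum_mul]
    rw [sum_comm]
    refine sum_congr rfl (fun b _ => ?_)
    rw [sum_comm]
  rw [e]
  unfold SS
  refine sum_le_sum (fun b _ => sum_le_sum (fun i _ => ?_))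
  have h1 : ∀ (R : ι → V) (x : V), ∑ j, ∑ z, ind (Ind T R ∧ K T R i b x) *
      ind (i ≠ j ∧ K T R j b z ∧ XX T R b i x z) ≤
      ind (Ind T R ∧ K T R i b x) * ff T (Function.update R i x) b := by
    intro R x
    by_cases hc : Ind T R ∧ K T R i b x
    · obtain ⟨hR, hK⟩ := hc
      rw [ind_true ⟨hR, hK⟩, one_mul]
      simp only [one_mul]
      rw [sum_comm]
      unfold ff
      apply sum_le_sum
      intro z _
      apply sum_ind_le
      · rintro j ⟨hij, hKj, l, hlb, hli, htl⟩
        have hKi := (K_iff hT).1 hK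
        have hKj' := (K_iff hT).1 hKj
        refine ⟨i, hKi.1, ⟨j, hij.symm, hKj'.1, ?_⟩, ⟨l, hlb, hli, ?_⟩, ?_⟩
        · rw [Function.update_of_ne hij.symm, Function.update_of_ne hKi.1.symm]
          exact hKj'.2.1
        · rw [Function.update_self, Function.update_of_ne hli]
          exact htl
        · intro k m hkm ht
          by_contra hcon
          push Not at hcon
          obtain ⟨hki, hkb, hmi, hmb⟩ := hcon
          rw [Function.update_of_ne hki, Function.update_of_ne hmi] at ht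
          exact hKj.1 k m hkb hmb hkm ht
      · rintro j j' ⟨_, h, _⟩ ⟨_, h', _⟩
        exact K_unique hT h h'
    · rw [ind_false hc, zero_mul]
      simp
  refine (sum_le_sum (fun R _ => sum_le_sum (fun x _ => h1 R x))).trans ?_
  rw [exch i]
  refine sum_le_sum (fun R _ => ?_)
  have h2 : ∀ x, ind (Ind T (Function.update R i x) ∧ K T (Function.update R i x) i b (R i)) *
      ff T (Function.update (Function.update R i x) i (R i)) b
      = ind (Ind T R) * (ind (K T R i b x) * ff T R b) := by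
    intro x
    rw [ind_congr (K_swap_iff hT), ind_and]
    simp
    ring
  simp only [h2]
  rw [← mul_sum, ← sum_mul]
  rfl

/-- the same-level inequality -/
theorem main_level (hT : Sym3 T) :
    3 * ∑ R : ι → V, ind (Ind T R) * ∑ b, mm T R b ^ 2
      + 2 * ∑ R : ι → V, ind (Ind T R) * ∑ b, nn T R b ^ 2
      ≤ 6 * ∑ R : ι → V, ind (Ind T R) * IR T R
        + 2 * SS T (fun (R : ι → V) b _ _ x z => Opn T R b x z) := by
  have h0 : ∑ R : ι → V, ind (Ind T R) * ((∑ b, ∑ x, ind (FreeOff T R b x) * min (gc T R b x) 2 * doff T R b x)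
      + ∑ b, ∑ x, ind (FreeOff T R b x ∧ (Gam T R b x).card = 1) * dd T (R b) x)
      ≤ ∑ R : ι → V, ind (Ind T R) * (2 * IR T R) :=
    sum_le_sum (fun R _ => mul_le_mul_of_nonneg_left (two_IR hT R) (ind_nonneg _))
  simp only [mul_add, sum_add_distrib] at h0
  rw [S1 hT] at h0
  have h1 := S2 (ι := ι) hT
  have h2 : ∑ R : ι → V, ind (Ind T R) * (2 * IR T R) = 2 * ∑ R : ι → V, ind (Ind T R) * IR T R := by
    rw [mul_sum]; refine sum_congr rfl (fun R _ => ?_); ring
  rw [h2] at h0
  have h3 : ∑ R : ι → V, ind (Ind T R) * ∑ b, mm T R b ^ 2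
      + ∑ R : ι → V, ind (Ind T R) * ∑ b, nn T R b * ff T R b
      ≤ ∑ R : ι → V, ind (Ind T R) * ∑ b, mm T R b * de T R b := by
    rw [← sum_add_distrib]
    refine sum_le_sum (fun R _ => ?_)
    rw [← mul_add, ← sum_add_distrib]
    apply mul_le_mul_of_nonneg_left _ (ind_nonneg _)
    refine sum_le_sum (fun b _ => ?_)
    have a1 := de_ge (T := T) R b
    have a2 := mm_eq (T := T) R b
    have a3 := sd_nonneg T R b
    have a4 := nn_nonneg T R b
    have a5 := ff_nonneg T R b
    nlinarith [mul_nonneg a3 a5, mul_nonneg a4 a5]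
  have h4 := N2_le (ι := ι) hT
  have h5 := AA_le_XX (ι := ι) hT
  have h6 := AA_le_J (ι := ι) hT
  have h7 := XX_le (ι := ι) hT
  linarith

end

end Pool.Agent.Helper1.T3
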