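import Pool.Agent.Helper1.T3.Core3

namespace Pool.Agent.Helper1.T3

open Finset
open scoped Classical

noncomputable section

variable {V : Type*} [Fintype V]
variable (T : V → V → V → Prop)

def fr {ι : Type*} (R : ι → V) : ℝ := ∑ x, ind (Free T R x)
def LL (a : V) : ℝ := ∑ x, dd T a x

variable {T}

theorem sum_cons {r : ℕ} (F : (Fin (r+1) → V) → ℝ) :
    ∑ B, F B = ∑ R : Fin r → V, ∑ x, F (Fin.cons x R) := by
  rw [← Equiv.sum_comp (Fin.consEquiv (fun _ => V)) F, Fintype.sum_prod_type, sum_comm]
  rfl

theorem Ind_cons (hT : Sym3 T) {r : ℕ} {R : Fin r → V} {x : V} :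
    Ind T (Fin.cons x R : Fin (r+1) → V) ↔ Ind T R ∧ Free T R x := by
  constructor
  · intro h
    constructor
    · intro i j k hij hik hjk ht
      exact h i.succ j.succ k.succ (by simpa using hij) (by simpa using hik) (by simpa using hjk)
        (by simpa using ht)
    · intro i j hij ht
      exact h i.succ j.succ 0 (by simpa using hij) (Fin.succ_ne_zero i) (Fin.succ_ne_zero j)
        (by simpa using ht)
  · rintro ⟨h1, h2⟩ i j k hij hik hjk ht
    induction i using Fin.cases with
    | zero =>
      induction j using Fin.cases with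
      | zero => exact hij rfl
      | succ j =>
        induction k using Fin.cases with
        | zero => exact hik rfl
        | succ k =>
          simp only [Fin.cons_zero, Fin.cons_succ] at ht
          exact h2 j k (by simpa using hjk) (hT.rot ht)
    | succ i =>
      induction j using Fin.cases with
      | zero =>
        induction k using Fin.cases with
        | zero => exact hjk rfl
        | succ k =>
          simp only [Fin.cons_zero, Fin.cons_succ] at ht
          exact h2 i k (by simpa using hik) (hT.s23 _ _ _ ht)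
      | succ j =>
        induction k using Fin.cases with
        | zero =>
          simp only [Fin.cons_zero, Fin.cons_succ] at ht
          exact h2 i j (by simpa using hij) ht
        | succ k =>
          simp only [Fin.cons_succ] at ht
          exact h1 i j k (by simpa using hij) (by simpa using hik) (by simpa using hjk) ht

theorem FreeOff_cons {r : ℕ} {R : Fin r → V} {x y : V} :
    FreeOff T (Fin.cons x R : Fin (r+1) → V) 0 y ↔ Free T R y := by
  constructor
  · intro h i j hij ht
    exact h i.succ j.succ (Fin.succ_ne_zero i) (Fin.succ_ne_zero j) (by simpa using hij)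
      (by simpa using ht)
  · intro h i j hi hj hij ht
    induction i using Fin.cases with
    | zero => exact hi rfl
    | succ i =>
      induction j using Fin.cases with
      | zero => exact hj rfl
      | succ j =>
        simp only [Fin.cons_succ] at ht
        exact h i j (by simpa using hij) ht

/-- symmetrisation over positions -/
theorem sum_pos {r : ℕ} (H : (Fin (r+1) → V) → Fin (r+1) → ℝ)
    (hH : ∀ (B : Fin (r+1) → V) (π : Equiv.Perm (Fin (r+1))) q, H (B ∘ π) q = H B (π q)) :
    ∑ B, ∑ q, H B q = (r+1) * ∑ B, H B 0 := by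
  rw [sum_comm]
  have : ∀ q, ∑ B, H B q = ∑ B, H B 0 := by
    intro q
    have h1 : ∀ B, H B q = H (B ∘ (Equiv.swap 0 q)) 0 := by
      intro B; rw [hH]; simp
    simp only [h1]
    let e : (Fin (r+1) → V) ≃ (Fin (r+1) → V) := Equiv.arrowCongr (Equiv.swap 0 q) (Equiv.refl V)
    rw [← Equiv.sum_comp e (fun B => H B 0)]
    apply sum_congr rfl
    intro B _
    congr 1
  simp only [this]
  rw [sum_const, card_univ, Fintype.card_fin, nsmul_eq_mul]
  push_cast; ring

section perm
variable {ι : Type*}

theorem Ind_perm (B : ι → V) (π : Equiv.Perm ι) : Ind T (B ∘ π) ↔ Ind T B := by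
  constructor
  · intro h i j k hij hik hjk ht
    exact h (π.symm i) (π.symm j) (π.symm k) (by simpa using hij) (by simpa using hik)
      (by simpa using hjk) (by simpa using ht)
  · intro h i j k hij hik hjk ht
    exact h (π i) (π j) (π k) (by simpa using hij) (by simpa using hik) (by simpa using hjk) ht

theorem FreeOff_perm (B : ι → V) (π : Equiv.Perm ι) (q : ι) (y : V) :
    FreeOff T (B ∘ π) q y ↔ FreeOff T B (π q) y := by
  constructor
  · intro h i j hi hj hij ht
    refine h (π.symm i) (π.symm j) ?_ ?_ (by simpa using hij) (by simpa using ht)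
    · intro h'; apply hi; rw [← h']; simp
    · intro h'; apply hj; rw [← h']; simp
  · intro h i j hi hj hij ht
    exact h (π i) (π j) (by simpa using hi) (by simpa using hj) (by simpa using hij) ht

theorem de_perm [Fintype ι] (B : ι → V) (π : Equiv.Perm ι) (q : ι) :
    de T (B ∘ π) q = de T B (π q) := by
  unfold de
  apply sum_congr rfl
  intro x _
  rw [gc_eq, gc_eq, ← Equiv.sum_comp π (fun i => ind (i ≠ π q ∧ T (B i) (B (π q)) x))]
  apply sum_congr rfl
  intro i _
  apply ind_congr
  simp

end perm

theorem fr_add_bl {ι : Type*} (R : ι → V) : fr T R + bl T R = Fintype.card V := by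
  unfold fr bl
  rw [← sum_add_distrib]
  have : ∀ x, ind (Free T R x) + ind (¬ Free T R x) = 1 := by
    intro x
    by_cases h : Free T R x <;> simp [ind, h]
  simp [this]

/-- (R1) -/
theorem R1 (hT : Sym3 T) (r : ℕ) :
    ∑ B : Fin (r+1) → V, ind (Ind T B) = ∑ R : Fin r → V, ind (Ind T R) * fr T R := by
  rw [sum_cons]
  apply sum_congr rfl
  intro R _
  unfold fr
  rw [mul_sum]
  apply sum_congr rfl
  intro x _
  rw [ind_congr (Ind_cons hT), ind_and]

theorem FreeOff_split {ι : Type*} [Fintype ι] (hT : Sym3 T) (B : ι → V) (q : ι) :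
    ∑ y, ind (FreeOff T B q y) = fr T B + nn T B q + sd T B q := by
  unfold fr nn sd
  rw [← sum_add_distrib, ← sum_add_distrib]
  apply sum_congr rfl
  intro y _
  by_cases hf : Free T B y
  · have h1 : FreeOff T B q y := fun i j _ _ hij => hf i j hij
    rw [ind_true hf, ind_true h1, Gam_empty_of hf]
    simp [ind]
  · rw [ind_false hf]
    by_cases h1 : FreeOff T B q y
    · have := (Gam_nonempty_of hT hf h1).card_pos
      rcases Nat.lt_or_ge (Gam T B q y).card 2 with h | h
      · have h2 : (Gam T B q y).card = 1 := by omega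
        rw [ind_true h1, ind_true ⟨h1, h2⟩, ind_false (by omega)]; ring
      · rw [ind_true h1, ind_false (by omega), ind_true ⟨h1, h⟩]; ring
    · rw [ind_false h1, ind_false (fun h => h1 h.1), ind_false (fun h => h1 h.1)]; ring

/-- (R2) -/
theorem R2 (hT : Sym3 T) (r : ℕ) :
    (r+1) * ∑ R : Fin r → V, ind (Ind T R) * fr T R ^ 2
      = ∑ B : Fin (r+1) → V, ind (Ind T B) *
          ((r+1) * fr T B + ∑ q, nn T B q + ∑ q, sd T B q) := by
  have h1 : ∑ B : Fin (r+1) → V, ∑ q, ind (Ind T B) * ∑ y, ind (FreeOff T B q y)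
      = (r+1) * ∑ B : Fin (r+1) → V, ind (Ind T B) * ∑ y, ind (FreeOff T B 0 y) := by
    apply sum_pos (fun B q => ind (Ind T B) * ∑ y, ind (FreeOff T B q y))
    intro B π q
    simp only [ind_congr (Ind_perm B π), ind_congr (FreeOff_perm B π q _)]
  have h2 : ∑ B : Fin (r+1) → V, ind (Ind T B) * ∑ y, ind (FreeOff T B 0 y)
      = ∑ R : Fin r → V, ind (Ind T R) * fr T R ^ 2 := by
    rw [sum_cons]
    apply sum_congr rfl
    intro R _
    have : ∀ x, ind (Ind T (Fin.cons x R : Fin (r+1) → V)) *
        ∑ y, ind (FreeOff T (Fin.cons x R : Fin (r+1) → V) 0 y)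
        = ind (Ind T R) * (ind (Free T R x) * fr T R) := by
      intro x
      rw [ind_congr (Ind_cons hT), ind_and]
      simp only [ind_congr FreeOff_cons]
      rw [mul_assoc]; rfl
    simp only [this]
    rw [← mul_sum, ← sum_mul, pow_two]; rfl
  rw [← h2, ← h1]
  apply sum_congr rfl
  intro B _
  rw [← mul_sum]
  congr 1
  simp only [FreeOff_split hT]
  rw [sum_add_distrib, sum_add_distrib, sum_const, card_univ, Fintype.card_fin, nsmul_eq_mul]
  push_cast; ring

theorem de_cons (hT : Sym3 T) {r : ℕ} (R : Fin r → V) (x : V) :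
    de T (Fin.cons x R : Fin (r+1) → V) 0 = dx T R x := by
  rw [← de_eq]
  unfold doff dx
  rw [Fin.sum_univ_succ]
  simp

/-- (R3) -/
theorem R3 (hT : Sym3 T) (r : ℕ) :
    ∑ B : Fin (r+1) → V, ind (Ind T B) * ∑ q, de T B q
      = (r+1) * ((∑ R : Fin r → V, ind (Ind T R) * ∑ i, LL T (R i))
        - ∑ R : Fin r → V, ind (Ind T R) * IR T R) := by
  have h1 : ∑ B : Fin (r+1) → V, ∑ q, ind (Ind T B) * de T B q
      = (r+1) * ∑ B : Fin (r+1) → V, ind (Ind T B) * de T B 0 := by
    apply sum_pos (fun B q => ind (Ind T B) * de T B q)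
    intro B π q
    simp only [ind_congr (Ind_perm B π), de_perm]
  simp only [← mul_sum] at h1
  rw [h1]
  congr 1
  rw [sum_cons, ← sum_sub_distrib]
  apply sum_congr rfl
  intro R _
  rw [← mul_sub]
  have : ∀ x, ind (Ind T (Fin.cons x R : Fin (r+1) → V)) * de T (Fin.cons x R : Fin (r+1) → V) 0
      = ind (Ind T R) * (ind (Free T R x) * dx T R x) := by
    intro x
    rw [ind_congr (Ind_cons hT), ind_and, de_cons hT, mul_assoc]
  simp only [this]
  rw [← mul_sum]
  congr 1
  unfold IR LL
  rw [sum_comm (f := fun i x => dd T (R i) x)]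
  rw [← sum_sub_distrib]
  apply sum_congr rfl
  intro x _
  change _ = dx T R x - _
  by_cases h : Free T R x <;> simp [ind, h]

end

end Pool.Agent.Helper1.T3
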