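import Pool.Agent.Helper1.T3.Levels

namespace Pool.Agent.Helper1.T3

open Finset
open scoped Classical

noncomputable section

variable {V : Type*} [Fintype V]
variable (T : V → V → V → Prop)

def Cov {ι : Type*} (B : ι → V) (y : V) (p q : ι) : Prop :=
  ∀ k l, k ≠ l → T (B k) (B l) y → k = p ∨ k = q ∨ l = p ∨ l = q

def Q2 {ι : Type*} (B : ι → V) (y : V) : Prop :=
  ∃ p q k l, p ≠ q ∧ k ≠ l ∧ p ≠ k ∧ p ≠ l ∧ q ≠ k ∧ q ≠ l ∧ T (B p) (B q) y ∧ T (B k) (B l) y

variable {T}

theorem Q2_QQ {ι : Type*} {B : ι → V} {y : V} (h : Q2 T B y) : QQ T B y := by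
  obtain ⟨p, q, k, l, hpq, hkl, hpk, hpl, hqk, hql, h1, h2⟩ := h
  refine ⟨fun hf => hf p q hpq h1, ?_⟩
  intro b hb
  by_cases hbp : p = b
  · subst hbp
    exact hb k l hpk.symm hpl.symm hkl h2
  · by_cases hbq : q = b
    · subst hbq
      exact hb k l hqk.symm hql.symm hkl h2
    · exact hb p q hbp hbq hpq h1

theorem cov_count {ι : Type*} [Fintype ι] {B : ι → V} {y : V} (h : Q2 T B y) :
    ∑ q, ∑ p, ind (p ≠ q ∧ Cov T B y p q) ≤ 8 := by
  obtain ⟨p0, q0, k0, l0, hpq, hkl, hpk, hpl, hqk, hql, h1, h2⟩ := h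
  rw [← Fintype.sum_prod_type' (f := fun q p => ind (p ≠ q ∧ Cov T B y p q))]
  let S : Finset (ι × ι) := (({p0, q0} : Finset ι) ×ˢ ({k0, l0} : Finset ι)) ∪
    (({k0, l0} : Finset ι) ×ˢ ({p0, q0} : Finset ι))
  have hS : (S.card : ℝ) ≤ 8 := by
    have h3 : S.card ≤ 8 := by
      refine (card_union_le _ _).trans ?_
      rw [card_product, card_product]
      have a1 : ({p0, q0} : Finset ι).card ≤ 2 := card_le_two
      have a2 : ({k0, l0} : Finset ι).card ≤ 2 := card_le_two
      nlinarith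
    exact_mod_cast h3
  refine le_trans ?_ hS
  have : ∑ x : ι × ι, ind (x.2 ≠ x.1 ∧ Cov T B y x.2 x.1)
      = ∑ x ∈ S, ind (x.2 ≠ x.1 ∧ Cov T B y x.2 x.1) := by
    symm
    apply sum_subset (subset_univ _)
    rintro ⟨q, p⟩ _ hx
    apply ind_false
    rintro ⟨hne, hc⟩
    apply hx
    have c1 := hc p0 q0 hpq h1
    have c2 := hc k0 l0 hkl h2
    simp only [S, mem_union, mem_product, mem_insert, mem_singleton]
    simp only at hne
    rcases c1 with c1 | c1 | c1 | c1 <;> rcases c2 with c2 | c2 | c2 | c2 <;> subst c1 <;>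
      simp_all
  rw [this]
  calc _ ≤ ∑ x ∈ S, (1 : ℝ) := sum_le_sum (fun _ _ => ind_le_one _)
    _ = _ := by simp

theorem Q2_perm {ι : Type*} (B : ι → V) (π : Equiv.Perm ι) (y : V) :
    Q2 T (B ∘ π) y ↔ Q2 T B y := by
  constructor
  · rintro ⟨p, q, k, l, h⟩
    refine ⟨π p, π q, π k, π l, ?_⟩
    simpa using h
  · rintro ⟨p, q, k, l, h⟩
    refine ⟨π.symm p, π.symm q, π.symm k, π.symm l, ?_⟩
    simpa using h

theorem Cov_perm {ι : Type*} (B : ι → V) (π : Equiv.Perm ι) (y : V) (p q : ι) :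
    Cov T (B ∘ π) y p q ↔ Cov T B y (π p) (π q) := by
  constructor
  · intro h k l hkl ht
    have := h (π.symm k) (π.symm l) (by simpa using hkl) (by simpa using ht)
    rcases this with h | h | h | h
    · left; rw [← h]; simp
    · right; left; rw [← h]; simp
    · right; right; left; rw [← h]; simp
    · right; right; right; rw [← h]; simp
  · intro h k l hkl ht
    have := h (π k) (π l) (by simpa using hkl) ht
    simpa using this

theorem decFin (r : ℕ) : (fun a b : Fin r => Classical.propDecidable (a = b)) = instDecidableEqFin r :=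
  Subsingleton.elim _ _

/-- the predicate on `(B, y)` produced by an open pair -/
def PB {r : ℕ} (T : V → V → V → Prop) (B : Fin (r+1) → V) (q p : Fin (r+1)) (y : V) : Prop :=
  p ≠ q ∧ Ind T B ∧ Q2 T B y ∧ Cov T B y p q

theorem open_to_PB (hT : Sym3 T) {r : ℕ} {R : Fin r → V} {b i j : Fin r} {x z : V}
    (hR : Ind T R) (hK : K T R i b x) (hij : i ≠ j) (hK' : K T R j b z) (hO : Opn T R b x z) :
    PB T (Fin.cons z (Function.update R b x) : Fin (r+1) → V) 0 b.succ (R b) := by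
  have k1 := (K_iff hT).1 hK
  have k2 := (K_iff hT).1 hK'
  have hsw : Ind T (Function.update R b x) := by
    have := (K_swap' hT hR hK).1
    rw [decFin] at this
    exact this
  have hz : Free T (Function.update R b x) z := by
    intro k l hkl ht
    by_cases hk : k = b
    · subst hk
      rw [Function.update_self, Function.update_of_ne hkl.symm] at ht
      exact hO l hkl.symm (hT.s12 _ _ _ ht)
    · by_cases hl : l = b
      · subst hl
        rw [Function.update_self, Function.update_of_ne hk] at ht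
        exact hO k hk ht
      · rw [Function.update_of_ne hk, Function.update_of_ne hl] at ht
        exact hK'.1 k l hk hl hkl ht
  refine ⟨Fin.succ_ne_zero b, (Ind_cons hT).2 ⟨hsw, hz⟩, ?_, ?_⟩
  · refine ⟨i.succ, b.succ, j.succ, 0, ?_, Fin.succ_ne_zero _, ?_, Fin.succ_ne_zero _, ?_,
      Fin.succ_ne_zero _, ?_, ?_⟩
    · simpa using k1.1
    · simpa using hij
    · simpa using k2.1.symm
    · simp only [Fin.cons_succ, Function.update_self]
      rw [Function.update_of_ne k1.1]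
      exact hT.s23 _ _ _ k1.2.1
    · simp only [Fin.cons_succ, Fin.cons_zero]
      rw [Function.update_of_ne k2.1]
      exact hT.s23 _ _ _ k2.2.1
  · intro k l hkl ht
    by_contra hcon
    push Not at hcon
    obtain ⟨hk1, hk2, hl1, hl2⟩ := hcon
    induction k using Fin.cases with
    | zero => exact hk2 rfl
    | succ k =>
      induction l using Fin.cases with
      | zero => exact hl2 rfl
      | succ l =>
        simp only [Fin.cons_succ] at ht
        have hkb : k ≠ b := fun h => hk1 (by rw [h])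
        have hlb : l ≠ b := fun h => hl1 (by rw [h])
        rw [Function.update_of_ne hkb, Function.update_of_ne hlb] at ht
        exact hR k l b (by simpa using hkl) hkb hlb ht

theorem exchF {r : ℕ} (b : Fin r) (F : (Fin r → V) → V → ℝ) :
    ∑ R, ∑ x, F R x = ∑ R, ∑ x, F (Function.update R b x) (R b) := by
  have := exch b F
  rw [decFin] at this
  exact this

/-- (R5) -/
theorem R5 (hT : Sym3 T) (r : ℕ) :
    (r+1) * SS T (fun (R : Fin r → V) b _ _ x z => Opn T R b x z)
      ≤ 8 * ∑ B : Fin (r+1) → V, ind (Ind T B) * qq T B := by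
  -- step 1
  have s1 : SS T (fun (R : Fin r → V) b _ _ x z => Opn T R b x z)
      ≤ ∑ b : Fin r, ∑ B : Fin (r+1) → V, ∑ y, ind (PB T B 0 b.succ y) := by
    have hSS : SS T (fun (R : Fin r → V) b _ _ x z => Opn T R b x z)
        = ∑ b, ∑ i, ∑ R : Fin r → V, ∑ x, ∑ j, ∑ z,
          ind (Ind T R ∧ K T R i b x) * ind (i ≠ j ∧ K T R j b z ∧ Opn T R b x z) := by
      unfold SS
      rw [decFin]
    rw [hSS]
    refine sum_le_sum (fun b _ => ?_)
    have e1 : ∑ i, ∑ R : Fin r → V, ∑ x, ∑ j, ∑ z,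
        ind (Ind T R ∧ K T R i b x) * ind (i ≠ j ∧ K T R j b z ∧ Opn T R b x z)
        = ∑ z, ∑ R : Fin r → V, ∑ x, ∑ i, ∑ j,
        ind (Ind T R ∧ K T R i b x) * ind (i ≠ j ∧ K T R j b z ∧ Opn T R b x z) := by
      have e : ∀ (R : Fin r → V), ∑ i, ∑ x, ∑ j, ∑ z,
          ind (Ind T R ∧ K T R i b x) * ind (i ≠ j ∧ K T R j b z ∧ Opn T R b x z)
          = ∑ z, ∑ x, ∑ i, ∑ j,
          ind (Ind T R ∧ K T R i b x) * ind (i ≠ j ∧ K T R j b z ∧ Opn T R b x z) := by
        intro R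
        rw [sum_comm]
        rw [sum_comm (f := fun z x => ∑ i, ∑ j,
          ind (Ind T R ∧ K T R i b x) * ind (i ≠ j ∧ K T R j b z ∧ Opn T R b x z))]
        refine sum_congr rfl (fun x _ => ?_)
        rw [sum_comm (f := fun z i => ∑ j,
          ind (Ind T R ∧ K T R i b x) * ind (i ≠ j ∧ K T R j b z ∧ Opn T R b x z))]
        refine sum_congr rfl (fun i _ => ?_)
        rw [sum_comm]
      rw [sum_comm]
      simp only [e]
      rw [sum_comm]
    rw [e1]
    have e2 : ∑ B : Fin (r+1) → V, ∑ y, ind (PB T B 0 b.succ y)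
        = ∑ z, ∑ R : Fin r → V, ∑ y, ind (PB T (Fin.cons z R : Fin (r+1) → V) 0 b.succ y) := by
      rw [sum_cons, sum_comm]
    rw [e2]
    refine sum_le_sum (fun z _ => ?_)
    rw [exchF b (fun R y => ind (PB T (Fin.cons z R : Fin (r+1) → V) 0 b.succ y))]
    refine sum_le_sum (fun R _ => sum_le_sum (fun x _ => ?_))
    have e3 : ∑ i, ∑ j, ind (Ind T R ∧ K T R i b x) * ind (i ≠ j ∧ K T R j b z ∧ Opn T R b x z)
        = ∑ p : Fin r × Fin r, ind ((Ind T R ∧ K T R p.1 b x) ∧
            (p.1 ≠ p.2 ∧ K T R p.2 b z ∧ Opn T R b x z)) := by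
      rw [Fintype.sum_prod_type]
      refine sum_congr rfl (fun i _ => sum_congr rfl (fun j _ => ?_))
      rw [← ind_and]
    rw [e3]
    apply sum_ind_le
    · rintro ⟨i, j⟩ ⟨⟨h1, h2⟩, h3, h4, h5⟩
      exact open_to_PB hT h1 h2 h3 h4 h5
    · rintro ⟨i, j⟩ ⟨i', j'⟩ ⟨⟨_, h2⟩, _, h4, _⟩ ⟨⟨_, h2'⟩, _, h4', _⟩
      have a1 := K_unique hT h2 h2'
      have a2 := K_unique hT h4 h4'
      simp only at a1 a2
      rw [a1, a2]
  have s2 : ∑ b : Fin r, ∑ B : Fin (r+1) → V, ∑ y, ind (PB T B 0 b.succ y)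
      ≤ ∑ B : Fin (r+1) → V, ∑ p, ∑ y, ind (PB T B 0 p y) := by
    rw [sum_comm]
    refine sum_le_sum (fun B _ => ?_)
    rw [Fin.sum_univ_succ (f := fun p => ∑ y, ind (PB T B 0 p y))]
    have : 0 ≤ ∑ y, ind (PB T B 0 0 y) := sum_nonneg (fun _ _ => ind_nonneg _)
    linarith
  have s3 : ∑ B : Fin (r+1) → V, ∑ q, ∑ p, ∑ y, ind (PB T B q p y)
      = (r+1) * ∑ B : Fin (r+1) → V, ∑ p, ∑ y, ind (PB T B 0 p y) := by
    apply sum_pos (fun B q => ∑ p, ∑ y, ind (PB T B q p y))
    intro B π q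
    rw [← Equiv.sum_comp π (fun p => ∑ y, ind (PB T B (π q) p y))]
    refine sum_congr rfl (fun p _ => sum_congr rfl (fun y _ => ?_))
    apply ind_congr
    unfold PB
    rw [Ind_perm, Q2_perm, Cov_perm]
    simp
  have s4 : ∑ B : Fin (r+1) → V, ∑ q, ∑ p, ∑ y, ind (PB T B q p y)
      ≤ 8 * ∑ B : Fin (r+1) → V, ind (Ind T B) * qq T B := by
    rw [mul_sum]
    refine sum_le_sum (fun B _ => ?_)
    have e4 : ∑ q, ∑ p, ∑ y, ind (PB T B q p y) = ∑ y, ∑ q, ∑ p, ind (PB T B q p y) := by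
      have : ∀ q, ∑ p, ∑ y, ind (PB T B q p y) = ∑ y, ∑ p, ind (PB T B q p y) := by
        intro q; rw [sum_comm]
      simp only [this]
      rw [sum_comm]
    rw [e4]
    unfold qq
    rw [mul_sum, mul_sum]
    refine sum_le_sum (fun y _ => ?_)
    by_cases hI : Ind T B
    · by_cases hQ : Q2 T B y
      · rw [ind_true hI, ind_true (Q2_QQ hQ)]
        refine le_trans ?_ ((cov_count hQ).trans (by norm_num))
        refine sum_le_sum (fun q _ => sum_le_sum (fun p _ => ?_))
        apply ind_mono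
        rintro ⟨h1, _, _, h4⟩
        exact ⟨h1, h4⟩
      · have : ∑ q, ∑ p, ind (PB T B q p y) = 0 := by
          refine sum_eq_zero (fun q _ => sum_eq_zero (fun p _ => ?_))
          exact ind_false (fun h => hQ h.2.2.1)
        rw [this]
        have := mul_nonneg (ind_nonneg (Ind T B)) (ind_nonneg (QQ T B y))
        linarith
    · have : ∑ q, ∑ p, ind (PB T B q p y) = 0 := by
        refine sum_eq_zero (fun q _ => sum_eq_zero (fun p _ => ?_))
        exact ind_false (fun h => hI h.2.1)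
      rw [this]
      have := mul_nonneg (ind_nonneg (Ind T B)) (ind_nonneg (QQ T B y))
      linarith
  have hr : (0 : ℝ) ≤ (r : ℝ) + 1 := by positivity
  calc (r+1) * SS T (fun (R : Fin r → V) b _ _ x z => Opn T R b x z)
      ≤ (r+1) * ∑ B : Fin (r+1) → V, ∑ p, ∑ y, ind (PB T B 0 p y) :=
        mul_le_mul_of_nonneg_left (s1.trans s2) hr
    _ = ∑ B : Fin (r+1) → V, ∑ q, ∑ p, ∑ y, ind (PB T B q p y) := s3.symm
    _ ≤ _ := s4

end

end Pool.Agent.Helper1.T3
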