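import Pool.Agent.Helper1.T3.Levels2

namespace Pool.Agent.Helper1.T3

open Finset
open scoped Classical

noncomputable section

/-- the numerical sequences extracted from a ternary relation -/
structure Data (m : ℕ) (t : ℝ) (c N S Q : ℕ → ℝ) : Prop where
  c0 : c 0 = 1
  c1 : c 1 = 1
  cnn : ∀ r, 0 ≤ c r
  cle : ∀ r, c r ≤ 1
  cvan : ∀ r, m ≤ r → c r = 0
  Nnn : ∀ r, 0 ≤ N r
  Snn : ∀ r, 0 ≤ S r
  Qnn : ∀ r, 0 ≤ Q r
  Nvan : ∀ r, m ≤ r → N r = 0
  Svan : ∀ r, m ≤ r → S r = 0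
  Qvan : ∀ r, m ≤ r → Q r = 0
  N0 : N 0 = 0
  S0 : S 0 = 0
  Q0 : Q 0 = 0
  tot : ∀ r : ℕ, N r + 2 * S r + 2 * Q r = 2 * (c r - (r+1) * c (r+1))
  var : ∀ (a b : ℝ) (r : ℕ), 0 ≤ (r+1) * (r+2) * c (r+2) + N (r+1) + S (r+1)
    - 2 * ((r+1) * c (r+1)) * (a + b * r) + (a + b * r)^2 * c r
  main : ∀ (α β : ℝ) (r : ℕ), 2 * (c (r+1) - (r+2) * c (r+2)) + 2 * S (r+1) + 2 * Q (r+1)
    + (3 * (2 * α * (N r + 2 * S r) - α^2 * (r * c r)) + 2 * (2 * β * N r - β^2 * (r * c r))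
      - 16 * Q (r+1)) / 6 ≤ r * t * c r

variable {V : Type*} [Fintype V]
variable (T : V → V → V → Prop)

def nV (V : Type*) [Fintype V] : ℝ := (Fintype.card V : ℝ)

def cS (r : ℕ) : ℝ := (∑ R : Fin r → V, ind (Ind T R)) / (r.factorial * nV V ^ r)
def NS (r : ℕ) : ℝ := (∑ R : Fin r → V, ind (Ind T R) * ∑ b, nn T R b) / (r.factorial * nV V ^ (r+1))
def SdS (r : ℕ) : ℝ := (∑ R : Fin r → V, ind (Ind T R) * ∑ b, sd T R b) / (r.factorial * nV V ^ (r+1))
def QS (r : ℕ) : ℝ := (∑ R : Fin r → V, ind (Ind T R) * qq T R) / (r.factorial * nV V ^ (r+1))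
def BS (r : ℕ) : ℝ := (∑ R : Fin r → V, ind (Ind T R) * bl T R) / (r.factorial * nV V ^ (r+1))

variable {T}

theorem fact_succ_real (r : ℕ) : (((r+1).factorial : ℕ) : ℝ) = (r+1) * (r.factorial : ℝ) := by
  rw [Nat.factorial_succ]; push_cast; ring

theorem Ind_restrict {r s : ℕ} (h : r ≤ s) {R : Fin s → V} (hR : Ind T R) :
    Ind T (R ∘ Fin.castLE h) := by
  intro i j k hij hik hjk
  exact hR _ _ _ (by simpa using hij) (by simpa using hik) (by simpa using hjk)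

section
variable [Nonempty V]

theorem nV_pos : 0 < nV V := by
  unfold nV
  exact_mod_cast Fintype.card_pos

theorem fr_sum (r : ℕ) : (∑ R : Fin r → V, ind (Ind T R) * fr T R) / (r.factorial * nV V ^ (r+1))
    = cS T r - BS T r := by
  have hn := nV_pos (V := V)
  have hf : (0:ℝ) < r.factorial := by exact_mod_cast Nat.factorial_pos r
  have h : ∑ R : Fin r → V, ind (Ind T R) * fr T R
      = nV V * (∑ R : Fin r → V, ind (Ind T R)) - ∑ R : Fin r → V, ind (Ind T R) * bl T R := by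
    rw [mul_sum, ← sum_sub_distrib]
    apply sum_congr rfl
    intro R _
    have := fr_add_bl (T := T) R
    have h2 : fr T R = nV V - bl T R := by unfold nV; linarith
    rw [h2]; ring
  rw [h]
  unfold cS BS
  rw [pow_succ]
  field_simp

theorem cS_succ (hT : Sym3 T) (r : ℕ) : (r+1) * cS T (r+1) = cS T r - BS T r := by
  rw [← fr_sum, ← R1 hT r]
  unfold cS
  have hn := nV_pos (V := V)
  have hf : (0:ℝ) < r.factorial := by exact_mod_cast Nat.factorial_pos r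
  rw [fact_succ_real]
  field_simp

end

end

end Pool.Agent.Helper1.T3
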