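import Pool.Agent.Helper1.T3.Seq

namespace Pool.Agent.Helper1.T3

open Finset
open scoped Classical

noncomputable section

variable {V : Type*} [Fintype V] [Nonempty V]
variable {T : V → V → V → Prop}

theorem wpos (r k : ℕ) : (0:ℝ) < r.factorial * nV V ^ k := by
  have hn := nV_pos (V := V)
  have hf : (0:ℝ) < r.factorial := by exact_mod_cast Nat.factorial_pos r
  positivity

theorem cS_nonneg (r : ℕ) : 0 ≤ cS T r :=
  div_nonneg (sum_nonneg (fun _ _ => ind_nonneg _)) (wpos r r).le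

theorem NS_nonneg (r : ℕ) : 0 ≤ NS T r :=
  div_nonneg (sum_nonneg (fun _ _ => mul_nonneg (ind_nonneg _)
    (sum_nonneg (fun _ _ => nn_nonneg T _ _)))) (wpos r (r+1)).le

theorem SdS_nonneg (r : ℕ) : 0 ≤ SdS T r :=
  div_nonneg (sum_nonneg (fun _ _ => mul_nonneg (ind_nonneg _)
    (sum_nonneg (fun _ _ => sd_nonneg T _ _)))) (wpos r (r+1)).le

theorem qq_nonneg {ι : Type*} (R : ι → V) : 0 ≤ qq T R := sum_nonneg (fun _ _ => ind_nonneg _)

theorem QS_nonneg (r : ℕ) : 0 ≤ QS T r :=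
  div_nonneg (sum_nonneg (fun _ _ => mul_nonneg (ind_nonneg _) (qq_nonneg _))) (wpos r (r+1)).le

theorem cS_le_one (r : ℕ) : cS T r ≤ 1 := by
  unfold cS
  rw [div_le_one (wpos r r)]
  calc ∑ R : Fin r → V, ind (Ind T R) ≤ ∑ R : Fin r → V, (1:ℝ) :=
        sum_le_sum (fun _ _ => ind_le_one _)
    _ = nV V ^ r := by simp [nV]
    _ = 1 * nV V ^ r := by ring
    _ ≤ _ := by
        apply mul_le_mul_of_nonneg_right _ (pow_nonneg nV_pos.le _)
        exact_mod_cast Nat.one_le_iff_ne_zero.2 (Nat.factorial_ne_zero r)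

theorem not_Ind_of_le {m : ℕ} (hm : ∀ R : Fin m → V, ¬ Ind T R) {r : ℕ} (h : m ≤ r)
    (R : Fin r → V) : ¬ Ind T R := fun hR => hm _ (Ind_restrict h hR)

theorem tot_seq (hT : Sym3 T) (r : ℕ) :
    NS T r + 2 * SdS T r + 2 * QS T r = 2 * (cS T r - (r+1) * cS T (r+1)) := by
  rw [cS_succ hT r]
  have h : ∑ R : Fin r → V, ind (Ind T R) * ∑ b, nn T R b
      + 2 * ∑ R : Fin r → V, ind (Ind T R) * ∑ b, sd T R b
      + 2 * ∑ R : Fin r → V, ind (Ind T R) * qq T R
      = 2 * ∑ R : Fin r → V, ind (Ind T R) * bl T R := by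
    rw [mul_sum, mul_sum, mul_sum, ← sum_add_distrib, ← sum_add_distrib]
    apply sum_congr rfl
    intro R _
    have h1 := sum_mm hT R
    simp only [mm_eq, sum_add_distrib, ← mul_sum] at h1
    linear_combination ind (Ind T R) * h1
  unfold NS SdS QS BS
  have h' := congrArg (fun y => y / (r.factorial * nV V ^ (r+1))) h
  simp only [add_div, mul_div_assoc] at h'
  rw [h']; ring

theorem var_seq (hT : Sym3 T) (a b : ℝ) (r : ℕ) :
    0 ≤ (r+1) * (r+2) * cS T (r+2) + NS T (r+1) + SdS T (r+1)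
    - 2 * ((r+1) * cS T (r+1)) * (a + b * r) + (a + b * r)^2 * cS T r := by
  have hn := nV_pos (V := V)
  set n := nV V with hnn
  have h0 : 0 ≤ ∑ R : Fin r → V, ind (Ind T R) * (fr T R - n * (a + b * r))^2 :=
    sum_nonneg (fun _ _ => mul_nonneg (ind_nonneg _) (sq_nonneg _))
  have h1 : ∑ R : Fin r → V, ind (Ind T R) * (fr T R - n * (a + b * r))^2
      = (∑ R : Fin r → V, ind (Ind T R) * fr T R ^ 2)
        - 2 * (n * (a + b * r)) * (∑ R : Fin r → V, ind (Ind T R) * fr T R)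
        + (n * (a + b * r))^2 * ∑ R : Fin r → V, ind (Ind T R) := by
    rw [mul_sum, mul_sum, ← sum_sub_distrib, ← sum_add_distrib]
    apply sum_congr rfl
    intro R _
    ring
  have h2 := R2 hT r
  have h2' : ∑ B : Fin (r+1) → V, ind (Ind T B) * ((r+1) * fr T B + ∑ q, nn T B q + ∑ q, sd T B q)
      = (r+1) * (∑ B : Fin (r+1) → V, ind (Ind T B) * fr T B)
        + (∑ B : Fin (r+1) → V, ind (Ind T B) * ∑ q, nn T B q)
        + ∑ B : Fin (r+1) → V, ind (Ind T B) * ∑ q, sd T B q := by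
    rw [mul_sum, ← sum_add_distrib, ← sum_add_distrib]
    apply sum_congr rfl
    intro B _
    ring
  rw [h2'] at h2
  have h3 : (∑ R : Fin r → V, ind (Ind T R) * fr T R) / (r.factorial * n ^ (r+1))
      = (r+1) * cS T (r+1) := by rw [cS_succ hT r, hnn]; exact fr_sum r
  have h4 : (∑ B : Fin (r+1) → V, ind (Ind T B) * fr T B) / ((r+1).factorial * n ^ (r+2))
      = (r+2) * cS T (r+2) := by
    have := cS_succ hT (r+1)
    have e := fr_sum (T := T) (r+1)
    rw [hnn]
    rw [show ((r:ℝ)+2) = ((r+1 : ℕ) : ℝ) + 1 by push_cast; ring, this]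
    exact e
  have w1 := wpos (V := V) r (r+1)
  have w2 := wpos (V := V) (r+1) (r+2)
  have w3 := wpos (V := V) r r
  rw [← hnn] at w1 w2 w3
  rw [div_eq_iff w1.ne'] at h3
  rw [div_eq_iff w2.ne'] at h4
  have h5 : NS T (r+1) * ((r+1).factorial * n ^ (r+2)) = ∑ B : Fin (r+1) → V, ind (Ind T B) * ∑ q, nn T B q := by
    unfold NS; rw [← hnn, div_mul_cancel₀ _ w2.ne']
  have h6 : SdS T (r+1) * ((r+1).factorial * n ^ (r+2)) = ∑ B : Fin (r+1) → V, ind (Ind T B) * ∑ q, sd T B q := by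
    unfold SdS; rw [← hnn, div_mul_cancel₀ _ w2.ne']
  have h7 : cS T r * (r.factorial * n ^ r) = ∑ R : Fin r → V, ind (Ind T R) := by
    unfold cS; rw [← hnn, div_mul_cancel₀ _ w3.ne']
  rw [fact_succ_real] at h4 h5 h6
  rw [h1, h3, ← h7] at h0
  rw [h4, ← h5, ← h6] at h2
  have hf : (0:ℝ) < r.factorial := by exact_mod_cast Nat.factorial_pos r
  have hr : (0:ℝ) < (r:ℝ) + 1 := by positivity
  have h8 : ∑ R : Fin r → V, ind (Ind T R) * fr T R ^ 2
      = ((r+1) * (r+2) * cS T (r+2) + NS T (r+1) + SdS T (r+1)) * (r.factorial * n ^ (r+2)) := by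
    apply mul_left_cancel₀ hr.ne'
    rw [h2]; ring
  rw [h8] at h0
  have h9 : 0 ≤ ((r+1) * (r+2) * cS T (r+2) + NS T (r+1) + SdS T (r+1)
    - 2 * ((r+1) * cS T (r+1)) * (a + b * r) + (a + b * r)^2 * cS T r) * (r.factorial * n ^ (r+2)) := by
    have e : ((r+1) * (r+2) * cS T (r+2) + NS T (r+1) + SdS T (r+1)
    - 2 * ((r+1) * cS T (r+1)) * (a + b * r) + (a + b * r)^2 * cS T r) * (r.factorial * n ^ (r+2))
      = ((r+1) * (r+2) * cS T (r+2) + NS T (r+1) + SdS T (r+1)) * (r.factorial * n ^ (r+2)) -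
      2 * (n * (a + b * r)) * ((r+1) * cS T (r+1) * (r.factorial * n ^ (r+1))) +
      (n * (a + b * r)) ^ 2 * (cS T r * (r.factorial * n ^ r)) := by ring
    rw [e]; exact h0
  have w4 : (0:ℝ) < r.factorial * n ^ (r+2) := by positivity
  exact nonneg_of_mul_nonneg_left h9 w4

theorem sq_sum_ge {r : ℕ} (f : (Fin r → V) → Fin r → ℝ) (α : ℝ) :
    2 * α * (∑ R : Fin r → V, ind (Ind T R) * ∑ b, f R b)
      - α^2 * (r * ∑ R : Fin r → V, ind (Ind T R))
      ≤ ∑ R : Fin r → V, ind (Ind T R) * ∑ b, f R b ^ 2 := by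
  have h : ∀ R : Fin r → V, ind (Ind T R) * (2 * α * (∑ b, f R b) - α^2 * r)
      ≤ ind (Ind T R) * ∑ b, f R b ^ 2 := by
    intro R
    apply mul_le_mul_of_nonneg_left _ (ind_nonneg _)
    have : 0 ≤ ∑ b, (f R b - α)^2 := sum_nonneg (fun _ _ => sq_nonneg _)
    have e : ∑ b, (f R b - α)^2 = ∑ b, f R b ^ 2 - 2 * α * ∑ b, f R b + r * α^2 := by
      have : ∀ b, (f R b - α)^2 = f R b ^ 2 - 2 * α * f R b + α^2 := by intro b; ring
      simp only [this, sum_add_distrib, sum_sub_distrib, ← mul_sum]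
      simp
    linarith
  have := sum_le_sum (fun R (_ : R ∈ univ) => h R)
  refine le_trans (le_of_eq ?_) this
  rw [mul_sum, mul_sum, mul_sum, ← sum_sub_distrib]
  apply sum_congr rfl
  intro R _
  ring

theorem main_seq (hT : Sym3 T) {t : ℝ} (ht : ∀ a, LL T a ≤ t * nV V ^ 2) (α β : ℝ) (r : ℕ) :
    2 * (cS T (r+1) - (r+2) * cS T (r+2)) + 2 * SdS T (r+1) + 2 * QS T (r+1)
    + (3 * (2 * α * (NS T r + 2 * SdS T r) - α^2 * (r * cS T r))
      + 2 * (2 * β * NS T r - β^2 * (r * cS T r)) - 16 * QS T (r+1)) / 6 ≤ r * t * cS T r := by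
  have hn := nV_pos (V := V)
  set n := nV V with hnn
  have hf : (0:ℝ) < r.factorial := by exact_mod_cast Nat.factorial_pos r
  have hr : (0:ℝ) < (r:ℝ) + 1 := by positivity
  -- names
  set Cc := ∑ R : Fin r → V, ind (Ind T R) with hCc
  set Nc := ∑ R : Fin r → V, ind (Ind T R) * ∑ b, nn T R b with hNc
  set Sc := ∑ R : Fin r → V, ind (Ind T R) * ∑ b, sd T R b with hSc
  set Ic := ∑ R : Fin r → V, ind (Ind T R) * IR T R with hIc
  set Lc := ∑ R : Fin r → V, ind (Ind T R) * ∑ i, LL T (R i) with hLc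
  set Sc' := ∑ B : Fin (r+1) → V, ind (Ind T B) * ∑ b, sd T B b with hSc'
  set Qc' := ∑ B : Fin (r+1) → V, ind (Ind T B) * qq T B with hQc'
  set Bc' := ∑ B : Fin (r+1) → V, ind (Ind T B) * bl T B with hBc'
  have i1 : 2 * Bc' + 2 * Sc' + 2 * Qc' ≤ (r+1) * (Lc - Ic) := by
    rw [hLc, hIc, ← R3 hT r, hBc', hSc', hQc', mul_sum, mul_sum, mul_sum, ← sum_add_distrib,
      ← sum_add_distrib]
    apply sum_le_sum
    intro B _
    have := mul_le_mul_of_nonneg_left (sum_de hT B) (ind_nonneg (Ind T B))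
    linarith
  have i2 : Lc ≤ r * t * n^2 * Cc := by
    rw [hLc, hCc, mul_sum]
    apply sum_le_sum
    intro R _
    have : ∑ i, LL T (R i) ≤ r * t * n^2 := by
      calc ∑ i, LL T (R i) ≤ ∑ _i : Fin r, t * n^2 := sum_le_sum (fun i _ => ht (R i))
        _ = r * t * n^2 := by simp; ring
    have := mul_le_mul_of_nonneg_left this (ind_nonneg (Ind T R))
    linarith
  have i3 := main_level (ι := Fin r) hT
  have i3' : 3 * (∑ R : Fin r → V, ind (Ind T R) * ∑ b, mm T R b ^ 2)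
      + 2 * (∑ R : Fin r → V, ind (Ind T R) * ∑ b, nn T R b ^ 2)
      ≤ 6 * Ic + 2 * SS T (fun (R : Fin r → V) b _ _ x z => Opn T R b x z) := by
    rw [hIc]
    rw [decFin] at i3
    exact i3
  have i4 := sq_sum_ge (T := T) (fun (R : Fin r → V) b => mm T R b) (α * n)
  have i5 := sq_sum_ge (T := T) (fun (R : Fin r → V) b => nn T R b) (β * n)
  have i6 := R5 hT r
  have i7 : ∑ R : Fin r → V, ind (Ind T R) * ∑ b, mm T R b = Nc + 2 * Sc := by
    rw [hNc, hSc, mul_sum, ← sum_add_distrib]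
    apply sum_congr rfl
    intro R _
    simp only [mm_eq, sum_add_distrib, ← mul_sum]
    ring
  rw [i7] at i4
  rw [← hCc] at i4 i5
  rw [← hNc] at i5
  rw [← hQc'] at i6
  -- normalised
  have w4 : (0:ℝ) < r.factorial * n ^ (r+2) := by positivity
  have e1 : cS T (r+1) - (r+2) * cS T (r+2) = Bc' / ((r+1) * (r.factorial * n ^ (r+2))) := by
    have := cS_succ hT (r+1)
    have h2 : cS T (r+1) - (r+2) * cS T (r+2) = BS T (r+1) := by
      have e : ((r:ℝ)+2) = ((r+1 : ℕ) : ℝ) + 1 := by push_cast; ring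
      rw [e, this]; ring
    rw [h2]
    unfold BS
    rw [fact_succ_real, ← hnn, hBc']
    rw [mul_assoc]
  have e2 : SdS T (r+1) = Sc' / ((r+1) * (r.factorial * n ^ (r+2))) := by
    unfold SdS
    rw [fact_succ_real, ← hnn, hSc', mul_assoc]
  have e3 : QS T (r+1) = Qc' / ((r+1) * (r.factorial * n ^ (r+2))) := by
    unfold QS
    rw [fact_succ_real, ← hnn, hQc', mul_assoc]
  have e4 : NS T r = n * Nc / (r.factorial * n ^ (r+2)) := by
    unfold NS
    rw [← hnn, ← hNc, div_eq_div_iff (by positivity) (by positivity)]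
    ring
  have e5 : SdS T r = n * Sc / (r.factorial * n ^ (r+2)) := by
    unfold SdS
    rw [← hnn, ← hSc, div_eq_div_iff (by positivity) (by positivity)]
    ring
  have e6 : cS T r = n^2 * Cc / (r.factorial * n ^ (r+2)) := by
    unfold cS
    rw [← hnn, ← hCc, div_eq_div_iff (by positivity) (by positivity)]
    ring
  rw [e1, e2, e3, e4, e5, e6]
  set O := SS T (fun (R : Fin r → V) b _ _ x z => Opn T R b x z) with hO
  set D := (r.factorial : ℝ) * n ^ (r+2) with hD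
  have key : 2 * (Bc' / (r+1)) + 2 * (Sc' / (r+1)) + 2 * (Qc' / (r+1))
      + (3 * (2 * α * (n * Nc + 2 * (n * Sc)) - α^2 * (r * (n^2 * Cc)))
        + 2 * (2 * β * (n * Nc) - β^2 * (r * (n^2 * Cc))) - 16 * (Qc' / (r+1))) / 6
      ≤ r * t * (n^2 * Cc) := by
    have j1 : (2 * Bc' + 2 * Sc' + 2 * Qc') / (r+1) ≤ Lc - Ic := by
      rw [div_le_iff₀ hr]; linarith
    have j6 : O ≤ 8 * (Qc' / (r+1)) := by
      have : O ≤ 8 * Qc' / (r+1) := by
        rw [le_div_iff₀ hr]; linarith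
      calc O ≤ 8 * Qc' / (r+1) := this
        _ = _ := by ring
    have j1' : 2 * (Bc' / (r+1)) + 2 * (Sc' / (r+1)) + 2 * (Qc' / (r+1)) ≤ Lc - Ic := by
      calc _ = (2 * Bc' + 2 * Sc' + 2 * Qc') / (r+1) := by ring
        _ ≤ _ := j1
    nlinarith [i2, i3', i4, i5, j6, j1']
  have hD0 : D ≠ 0 := w4.ne'
  have hr0 : (r:ℝ) + 1 ≠ 0 := hr.ne'
  have e7 : ∀ x : ℝ, x / ((r+1) * D) = (x / (r+1)) / D := by
    intro x; field_simp
  rw [e7, e7, e7]
  have : (2 * (Bc' / (r+1)) + 2 * (Sc' / (r+1)) + 2 * (Qc' / (r+1))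
      + (3 * (2 * α * (n * Nc + 2 * (n * Sc)) - α^2 * (r * (n^2 * Cc)))
        + 2 * (2 * β * (n * Nc) - β^2 * (r * (n^2 * Cc))) - 16 * (Qc' / (r+1))) / 6) / D
      ≤ (r * t * (n^2 * Cc)) / D := div_le_div_of_nonneg_right key w4.le
  refine le_trans (le_of_eq ?_) (this.trans (le_of_eq ?_))
  · ring
  · ring

theorem sum_fin0 {f : (Fin 0 → V) → ℝ} : ∑ R : Fin 0 → V, f R = f Fin.elim0 := by
  rw [Fintype.sum_eq_single (Fin.elim0 : Fin 0 → V)]
  intro R hR
  exact absurd (Subsingleton.elim R _) hR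

theorem data_of (hT : Sym3 T) {m : ℕ} (hm : ∀ R : Fin m → V, ¬ Ind T R) {t : ℝ}
    (ht : ∀ a, LL T a ≤ t * nV V ^ 2) : Data m t (cS T) (NS T) (SdS T) (QS T) where
  c0 := by
    unfold cS
    rw [sum_fin0, ind_true]
    · simp
    · intro i; exact i.elim0
  c1 := by
    have := cS_succ hT 0
    have h0 : cS T 0 = 1 := by
      unfold cS
      rw [sum_fin0, ind_true]
      · simp
      · intro i; exact i.elim0
    have hB : BS T 0 = 0 := by
      unfold BS
      rw [sum_fin0]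
      have : bl T (Fin.elim0 : Fin 0 → V) = 0 := by
        unfold bl
        apply sum_eq_zero
        intro x _
        apply ind_false
        intro h
        exact h (fun i => i.elim0)
      rw [this]; simp
    rw [h0, hB] at this
    simpa using this
  cnn := cS_nonneg
  cle := cS_le_one
  cvan := by
    intro r hr
    unfold cS
    rw [sum_eq_zero (fun R _ => ind_false (not_Ind_of_le hm hr R)), zero_div]
  Nnn := NS_nonneg
  Snn := SdS_nonneg
  Qnn := QS_nonneg
  Nvan := by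
    intro r hr
    unfold NS
    rw [sum_eq_zero (fun R _ => by rw [ind_false (not_Ind_of_le hm hr R), zero_mul]), zero_div]
  Svan := by
    intro r hr
    unfold SdS
    rw [sum_eq_zero (fun R _ => by rw [ind_false (not_Ind_of_le hm hr R), zero_mul]), zero_div]
  Qvan := by
    intro r hr
    unfold QS
    rw [sum_eq_zero (fun R _ => by rw [ind_false (not_Ind_of_le hm hr R), zero_mul]), zero_div]
  N0 := by unfold NS; simp
  S0 := by unfold SdS; simp
  Q0 := by
    unfold QS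
    rw [sum_fin0]
    have : qq T (Fin.elim0 : Fin 0 → V) = 0 := by
      unfold qq
      apply sum_eq_zero
      intro x _
      apply ind_false
      intro h
      exact h.1 (fun i => i.elim0)
    rw [this]; simp
  tot := tot_seq hT
  var := var_seq hT
  main := main_seq hT ht

end

end Pool.Agent.Helper1.T3
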