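import Pool.Agent.Helper1.T3.Seq2
import Pool.Agent.Helper1.T3.Barrier
import Pool.Agent.Helper1.TuranLimit

namespace Pool.Agent.Helper1.T3

open Finset Filter Topology
open Pool.Agent.Helper1.Turan
open scoped Classical

noncomputable section

/-- the complement relation of a 3-graph, with the degenerate triples -/
def TG {n : ℕ} (G : Finset (Finset (Fin n))) (a b c : Fin n) : Prop :=
  a = b ∨ b = c ∨ a = c ∨ ({a, b, c} : Finset (Fin n)) ∉ G

theorem TG_sym {n : ℕ} (G : Finset (Finset (Fin n))) : Sym3 (TG G) where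
  s12 := by
    intro a b c h
    unfold TG at *
    have : ({b, a, c} : Finset (Fin n)) = {a, b, c} := by
      ext x; simp only [mem_insert, mem_singleton]; tauto
    rw [this]
    rcases h with h | h | h | h
    · left; exact h.symm
    · right; right; left; exact h
    · right; left; exact h
    · right; right; right; exact h
  s23 := by
    intro a b c h
    unfold TG at *
    have : ({a, c, b} : Finset (Fin n)) = {a, b, c} := by
      ext x; simp only [mem_insert, mem_singleton]; tauto
    rw [this]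
    rcases h with h | h | h | h
    · right; right; left; exact h
    · right; left; exact h.symm
    · left; exact h
    · right; right; right; exact h

theorem TG_noInd {n m : ℕ} (hm : 3 ≤ m) {G : Finset (Finset (Fin n))}
    (hG : CompleteFree 3 m n G) (R : Fin m → Fin n) : ¬ Ind (TG G) R := by
  intro h
  have hinj : Function.Injective R := by
    intro i j hij
    by_contra hne
    obtain ⟨k, hk⟩ : ∃ k : Fin m, k ∉ ({i, j} : Finset (Fin m)) := by
      by_contra hcon
      push Not at hcon
      have h1 : (univ : Finset (Fin m)) ⊆ {i, j} := fun x _ => hcon x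
      have h2 := card_le_card h1
      have h3 : ({i, j} : Finset (Fin m)).card ≤ 2 := card_le_two
      simp at h2
      omega
    simp only [mem_insert, mem_singleton, not_or] at hk
    exact h i j k hne (Ne.symm hk.1) (Ne.symm hk.2) (Or.inl hij)
  have hc : (univ.image R).card = m := by
    rw [card_image_of_injective _ hinj]; simp
  obtain ⟨e, he, hec, heG⟩ := hG _ hc
  obtain ⟨x, y, z, hxy, hxz, hyz, rfl⟩ := card_eq_three.mp hec
  have hx : x ∈ univ.image R := he (by simp)
  have hy : y ∈ univ.image R := he (by simp)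
  have hz : z ∈ univ.image R := he (by simp)
  simp only [mem_image, mem_univ, true_and] at hx hy hz
  obtain ⟨i, rfl⟩ := hx
  obtain ⟨j, rfl⟩ := hy
  obtain ⟨k, rfl⟩ := hz
  exact h i j k (fun h => hxy (by rw [h])) (fun h => hxz (by rw [h])) (fun h => hyz (by rw [h]))
    (Or.inr (Or.inr (Or.inr heG)))

theorem LL_TG {n : ℕ} {G : Finset (Finset (Fin n))} (hG : IsKGraph 3 n G) (a : Fin n) :
    LL (TG G) a ≤ (n:ℝ)^2 - 2 * ((G.filter (fun e => a ∈ e)).card : ℝ) := by
  set P : Finset (Fin n × Fin n) := univ.filter (fun p => ¬ TG G a p.1 p.2) with hP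
  have h1 : LL (TG G) a = (n:ℝ)^2 - (P.card : ℝ) := by
    unfold LL dd
    have h2 : ∑ x, ∑ x_1, ind (TG G a x x_1) = ∑ p : Fin n × Fin n, ind (TG G a p.1 p.2) := by
      rw [Fintype.sum_prod_type]
    rw [h2]
    have h3 : ∀ p : Fin n × Fin n, ind (TG G a p.1 p.2) = 1 - (if ¬ TG G a p.1 p.2 then 1 else 0) := by
      intro p
      by_cases h : TG G a p.1 p.2 <;> simp [ind, h]
    rw [sum_congr rfl (fun p _ => h3 p), sum_sub_distrib]
    have h4 : ∑ p : Fin n × Fin n, (if ¬ TG G a p.1 p.2 then (1:ℝ) else 0) = (P.card : ℝ) := by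
      rw [hP, card_filter]; push_cast; rfl
    rw [h4]
    simp [sq]
  have h5 : 2 * (G.filter (fun e => a ∈ e)).card ≤ P.card := by
    have hmap : ∀ p ∈ P, ({a, p.1, p.2} : Finset (Fin n)) ∈ G.filter (fun e => a ∈ e) := by
      intro p hp
      simp only [hP, mem_filter, mem_univ, true_and, TG, not_or, not_not] at hp
      simp only [mem_filter]
      exact ⟨hp.2.2.2, by simp⟩
    rw [card_eq_sum_card_fiberwise (f := fun p : Fin n × Fin n => ({a, p.1, p.2} : Finset (Fin n))) hmap]
    have h6 : ∀ e ∈ G.filter (fun e => a ∈ e), 2 ≤ (P.filter (fun p => ({a, p.1, p.2} : Finset (Fin n)) = e)).card := by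
      intro e he
      simp only [mem_filter] at he
      have hec := hG e he.1
      have hcard : (e.erase a).card = 2 := by rw [card_erase_of_mem he.2, hec]
      obtain ⟨x, y, hxy, hxye⟩ := card_eq_two.mp hcard
      have hx : x ∈ e.erase a := by rw [hxye]; simp
      have hy : y ∈ e.erase a := by rw [hxye]; simp
      have hxa : x ≠ a := (mem_erase.mp hx).1
      have hya : y ≠ a := (mem_erase.mp hy).1
      have he1 : ({a, x, y} : Finset (Fin n)) = e := by
        rw [← insert_erase he.2, hxye]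
      have he2 : ({a, y, x} : Finset (Fin n)) = e := by
        rw [← he1]; ext w; simp only [mem_insert, mem_singleton]; tauto
      have hsub : ({(x, y), (y, x)} : Finset (Fin n × Fin n)) ⊆ P.filter (fun p => ({a, p.1, p.2} : Finset (Fin n)) = e) := by
        intro p hp
        simp only [mem_insert, mem_singleton] at hp
        simp only [mem_filter, hP, mem_univ, true_and, TG, not_or, not_not]
        rcases hp with rfl | rfl
        · simp only
          rw [he1]
          exact ⟨⟨hxa.symm, hxy, hya.symm, he.1⟩, rfl⟩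
        · simp only
          rw [he2]
          exact ⟨⟨hya.symm, hxy.symm, hxa.symm, he.1⟩, rfl⟩
      have hc2 : ({(x, y), (y, x)} : Finset (Fin n × Fin n)).card = 2 := by
        apply card_pair
        intro h
        exact hxy (Prod.mk.inj h).1
      rw [← hc2]
      exact card_le_card hsub
    calc 2 * (G.filter (fun e => a ∈ e)).card = ∑ e ∈ G.filter (fun e => a ∈ e), 2 := by
          rw [sum_const, smul_eq_mul, mul_comm]
      _ ≤ _ := sum_le_sum h6
  rw [h1]
  have h7 : (2:ℝ) * ((G.filter (fun e => a ∈ e)).card : ℝ) ≤ (P.card : ℝ) := by exact_mod_cast h5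
  linarith

/-- every vertex of an extremal graph has large degree -/
theorem deg_extremal {m n : ℕ} {G : Finset (Finset (Fin (n+1)))} (hG : IsKGraph 3 (n+1) G)
    (hG2 : CompleteFree 3 m (n+1) G) (hG3 : G.card = exNum 3 m (n+1)) (a : Fin (n+1)) :
    (exNum 3 m (n+1) : ℝ) - exNum 3 m n ≤ ((G.filter (fun e => a ∈ e)).card : ℝ) := by
  have h1 := card_le_exNum (del_isKGraph hG a) (del_completeFree hG2 a)
  rw [card_del] at h1
  have h2 := card_filter_add_card_filter_not (s := G) (fun e => a ∈ e)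
  rw [← hG3]
  have h3 : ((G.filter (fun e => a ∈ e)).card : ℝ) + ((G.filter (fun e => a ∉ e)).card : ℝ) = G.card := by
    exact_mod_cast h2
  have h4 : ((G.filter (fun e => a ∉ e)).card : ℝ) ≤ exNum 3 m n := by exact_mod_cast h1
  linarith

theorem freq_gap {m : ℕ} (hm : 3 ≤ m) {ε : ℝ} (hε : 0 < ε) (n0 : ℕ) :
    ∃ n, n0 ≤ n ∧ (turanDensity 3 m - ε) * (n.choose 2 : ℝ) ≤ (exNum 3 m (n+1) : ℝ) - exNum 3 m n := by
  by_contra hcon
  push Not at hcon
  set p := turanDensity 3 m - ε with hp
  have h1 : ∀ n, n0 ≤ n → (exNum 3 m n : ℝ) ≤ exNum 3 m n0 + p * ((n.choose 3 : ℝ) - (n0.choose 3 : ℝ)) := by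
    intro n hn
    induction n, hn using Nat.le_induction with
    | base => simp
    | succ n hn ih =>
      have h2 := hcon n hn
      have h3 : ((n+1).choose 3 : ℝ) = (n.choose 2 : ℝ) + (n.choose 3 : ℝ) := by
        rw [Nat.choose_succ_succ' n 2]; push_cast; ring
      rw [h3]
      have : p * ((n.choose 2 : ℝ) + (n.choose 3 : ℝ) - (n0.choose 3 : ℝ))
        = p * (n.choose 2 : ℝ) + p * ((n.choose 3 : ℝ) - (n0.choose 3 : ℝ)) := by ring
      rw [this]
      linarith
  have h2 : ∀ n, n0 ≤ n → 3 ≤ n → ε * (n.choose 3 : ℝ) ≤ exNum 3 m n0 - p * (n0.choose 3 : ℝ) := by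
    intro n hn hn3
    have h3 := h1 n hn
    have h4 := turanDensity_le_ratio (n := n) hm hn3
    have hpos : (0:ℝ) < (n.choose 3 : ℝ) := by exact_mod_cast Nat.choose_pos hn3
    rw [le_div_iff₀ hpos] at h4
    have h5 : turanDensity 3 m = p + ε := by rw [hp]; ring
    rw [h5] at h4
    nlinarith
  obtain ⟨B, hB⟩ : ∃ B : ℝ, B = exNum 3 m n0 - p * (n0.choose 3 : ℝ) := ⟨_, rfl⟩
  rw [← hB] at h2
  obtain ⟨M, hM⟩ := exists_nat_gt (B / ε)
  have h6 := h2 (M + n0 + 3) (by omega) (by omega)
  have h7 : M ≤ (M + n0 + 3).choose 3 := by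
    have h8 : (M + n0 + 3) - 2 ≤ (M + n0 + 3).choose 3 := by
      have h9 : ∀ k : ℕ, k + 1 ≤ (k + 3).choose 3 := by
        intro k
        induction k with
        | zero => simp
        | succ k ih =>
          have : (k + 1 + 3).choose 3 = (k+3).choose 2 + (k+3).choose 3 := Nat.choose_succ_succ' (k+3) 2
          rw [this]
          have h10 : 0 < (k+3).choose 2 := Nat.choose_pos (by omega)
          omega
      have := h9 (M + n0)
      omega
    omega
  have h8 : (M:ℝ) ≤ ((M + n0 + 3).choose 3 : ℝ) := by exact_mod_cast h7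
  rw [div_lt_iff₀ hε] at hM
  nlinarith

theorem turanDensity_le_one {k m : ℕ} (hkm : k ≤ m) : turanDensity k m ≤ 1 := by
  have h := turanDensity_le_ratio (n := k) hkm le_rfl
  have h2 : (exNum k m k : ℝ) ≤ (k.choose k : ℝ) := by exact_mod_cast exNum_le_choose (n := k) hkm
  have h3 : (exNum k m k : ℝ) / (k.choose k : ℝ) ≤ 1 := by
    rw [div_le_one (by simp)]; exact h2
  linarith

theorem main_eps {m : ℕ} (hm : 3 ≤ m) {ε : ℝ} (hε : 0 < ε) :
    5/4 ≤ (1 - turanDensity 3 m + 2 * ε) * ((m:ℝ) - 1)^2 / 2 := by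
  obtain ⟨M, hM⟩ := exists_nat_gt (3 / ε)
  obtain ⟨n, hn, hgap⟩ := freq_gap hm hε (M + 1)
  obtain ⟨G, g1, g2, g3⟩ := exists_exNum (n := n+1) hm
  have hπ := turanDensity_le_one hm
  have ht : 0 ≤ 1 - turanDensity 3 m + 2 * ε := by linarith
  have hLL : ∀ a, LL (TG G) a ≤ (1 - turanDensity 3 m + 2 * ε) * nV (Fin (n+1)) ^ 2 := by
    intro a
    have h1 := LL_TG g1 a
    have h2 := deg_extremal g1 g2 g3 a
    have h3 : nV (Fin (n+1)) = (n:ℝ) + 1 := by unfold nV; simp
    rw [h3]
    push_cast at h1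
    have h4 : (n.choose 2 : ℝ) = n * (n - 1) / 2 := Nat.cast_choose_two ℝ n
    rw [h4] at hgap
    have hnM : (M:ℝ) < n := by
      have : M < n := by omega
      exact_mod_cast this
    rw [div_lt_iff₀ hε] at hM
    have h5 : (3:ℝ) ≤ n * ε := by nlinarith
    have h6 : (turanDensity 3 m - ε) * (3 * n + 1) ≤ ε * ((n:ℝ)+1)^2 := by
      have h7 : (turanDensity 3 m - ε) * (3 * n + 1) ≤ 1 * (3 * n + 1) := by
        apply mul_le_mul_of_nonneg_right _ (by positivity)
        linarith
      have h8 : (3:ℝ) * n + 1 ≤ 3 * (n + 1) := by linarith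
      have h9 : 3 * ((n:ℝ) + 1) ≤ (n * ε) * (n+1) := by
        apply mul_le_mul_of_nonneg_right h5 (by positivity)
      have h10 : (n * ε) * ((n:ℝ)+1) ≤ ε * ((n:ℝ)+1)^2 := by
        have : 0 ≤ ε * ((n:ℝ) + 1) := by positivity
        nlinarith
      linarith
    nlinarith
  have hD := data_of (V := Fin (n+1)) (TG_sym G) (TG_noInd hm g2) hLL
  exact analysis hD (by omega) ht

/-- **Main theorem.** -/
theorem turanDensity_three_le {m : ℕ} (hm : 3 ≤ m) :
    turanDensity 3 m ≤ 1 - (5/2) / ((m:ℝ) - 1)^2 := by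
  have hm1 : (0:ℝ) < (m:ℝ) - 1 := by
    have : (3:ℝ) ≤ m := by exact_mod_cast hm
    linarith
  have hsq : 0 < ((m:ℝ) - 1)^2 := by positivity
  have key : (5/2) / ((m:ℝ) - 1)^2 ≤ 1 - turanDensity 3 m := by
    apply le_of_forall_pos_le_add
    intro ε hε
    have h := main_eps hm (half_pos hε)
    rw [div_le_iff₀ hsq]
    linarith
  linarith

end

end Pool.Agent.Helper1.T3
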